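import Mathlib

set_option autoImplicit false

namespace Pool.Agent.Helper2.PackAP

/-- Two disjoint `n`-term progressions with coprime differences `q, d ≤ n`, the one with difference
`q` starting first: the starting points differ by at least `(n - d) q + d`. -/
theorem gap (n q d : ℤ) (hq : 1 ≤ q) (hqn : q ≤ n) (hd : 1 ≤ d) (hdn : d ≤ n)
    (hco : IsCoprime q d) (a b : ℤ) (hab : a ≤ b)
    (hdis : ∀ i j : ℤ, 0 ≤ i → i < n → 0 ≤ j → j < n → a + i * q ≠ b + j * d) :
    (n - d) * q + d ≤ b - a := by
  obtain ⟨u, v, huv⟩ := hco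
  -- window representative
  set D := b - a with hD
  set i := (n - d) + ((D * u - (n - d)) % d) with hi
  have hr0 : 0 ≤ (D * u - (n - d)) % d := Int.emod_nonneg _ (by omega)
  have hr1 : (D * u - (n - d)) % d < d := Int.emod_lt_of_pos _ (by omega)
  have hi0 : n - d ≤ i := by omega
  have hi1 : i < n := by omega
  have hdiv : d ∣ i * q - D := by
    have h1 : d ∣ i - D * u := by
      have h2 := Int.emod_add_mul_ediv (D * u - (n - d)) d
      refine ⟨-((D * u - (n - d)) / d), ?_⟩
      rw [hi]
      linarith
    obtain ⟨w, hw⟩ := h1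
    refine ⟨w * q - D * v, ?_⟩
    have : i = D * u + d * w := by linarith
    rw [this]
    have h3 : u * q = 1 - v * d := by linarith
    calc (D * u + d * w) * q - D = D * (u * q) + d * w * q - D := by ring
      _ = D * (1 - v * d) + d * w * q - D := by rw [h3]
      _ = d * (w * q - D * v) := by ring
  obtain ⟨j, hj⟩ := hdiv
  by_cases hj0 : j < 0
  · have : D = i * q - d * j := by linarith
    nlinarith
  · exfalso
    push Not at hj0
    by_cases hjn : j < n
    · exact hdis i j (by omega) hi1 hj0 hjn (by linarith)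
    · push Not at hjn
      set t := (j - (n - q)) / q with ht
      set j' := (n - q) + (j - (n - q)) % q with hj'
      have hs0 : 0 ≤ (j - (n - q)) % q := Int.emod_nonneg _ (by omega)
      have hs1 : (j - (n - q)) % q < q := Int.emod_lt_of_pos _ (by omega)
      have ht0 : 0 ≤ t := Int.ediv_nonneg (by omega) (by omega)
      have hjj : j = j' + q * t := by
        have := Int.emod_add_mul_ediv (j - (n - q)) q
        rw [hj', ht]; linarith
      have hj'0 : 0 ≤ j' := by omega
      have hj'n : j' < n := by omega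
      have hkey : (i - t * d) * q = D + j' * d := by
        have : i * q = D + d * (j' + q * t) := by rw [← hjj]; linarith
        linarith
      have hi'0 : 0 ≤ i - t * d := by
        by_contra hneg
        push Not at hneg
        have h1 : (i - t * d) * q < 0 := mul_neg_of_neg_of_pos hneg (by omega)
        have h2 : 0 ≤ j' * d := mul_nonneg hj'0 (by omega)
        have h3 : 0 ≤ D := by omega
        linarith
      have hi'n : i - t * d < n := by
        have : 0 ≤ t * d := mul_nonneg ht0 (by omega)
        linarith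
      exact hdis (i - t * d) j' hi'0 hi'n hj'0 hj'n (by linarith)

/-- Telescoping along the starting points. -/
theorem chain {ι : Type} [DecidableEq ι] (n A : ℤ) (w a : ι → ℤ) (s : Finset ι)
    (hs : ∀ x ∈ s, ∀ y ∈ s, x ≠ y → a x ≤ a y → w x * (n - w y) ≤ a y - a x)
    (hA : ∀ x ∈ s, A ≤ a x) :
    ∀ e E : ℤ, A ≤ e → (∀ x ∈ s, a x ≤ e) → (∀ x ∈ s, w x * (n - E) ≤ e - a x) →
      2 * ∑ x ∈ s, w x * (n - w x) ≤ 2 * (e - A) + E ^ 2 := by
  induction s using Finset.induction_on_max_value a with
  | empty =>
    intro e E h1 _ _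
    simp only [Finset.sum_empty, mul_zero]
    nlinarith [sq_nonneg E]
  | insert z t hz hmax ih =>
    intro e E h1 h2 h3
    rw [Finset.sum_insert hz]
    have hih := ih (fun x hx y hy => hs x (Finset.mem_insert_of_mem hx) y
      (Finset.mem_insert_of_mem hy)) (fun x hx => hA x (Finset.mem_insert_of_mem hx))
      (a z) (w z) (hA z (Finset.mem_insert_self _ _)) hmax
      (fun x hx => hs x (Finset.mem_insert_of_mem hx) z (Finset.mem_insert_self _ _)
        (fun h => hz (h ▸ hx)) (hmax x hx))
    have h4 := h3 z (Finset.mem_insert_self _ _)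
    nlinarith [sq_nonneg (w z - E)]

/-- The chain inequality for a family of progressions packed into `[1, m]`. -/
theorem chain_total {ι : Type} [DecidableEq ι] (n m : ℤ) (w a : ι → ℤ) (s : Finset ι)
    (hm : 0 ≤ m)
    (hs : ∀ x ∈ s, ∀ y ∈ s, x ≠ y → a x ≤ a y → w x * (n - w y) ≤ a y - a x)
    (h1 : ∀ x ∈ s, 1 ≤ a x) (h2 : ∀ x ∈ s, a x + (n - 1) * w x ≤ m)
    (hw : ∀ x ∈ s, 1 ≤ w x) :
    ∑ x ∈ s, w x * (n - w x) ≤ m := by
  rcases s.eq_empty_or_nonempty with rfl | hne
  · simpa using hm
  · obtain ⟨z, hz, hzmax⟩ := Finset.exists_max_image s a hne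
    have h3 := chain n 1 w a (s.erase z)
      (fun x hx y hy => hs x (Finset.mem_of_mem_erase hx) y (Finset.mem_of_mem_erase hy))
      (fun x hx => h1 x (Finset.mem_of_mem_erase hx)) (a z) (w z) (h1 z hz)
      (fun x hx => hzmax x (Finset.mem_of_mem_erase hx))
      (fun x hx => hs x (Finset.mem_of_mem_erase hx) z hz (Finset.ne_of_mem_erase hx)
        (hzmax x (Finset.mem_of_mem_erase hx)))
    have h4 := Finset.add_sum_erase s (fun x => w x * (n - w x)) hz
    have h5 := h2 z hz
    have h6 := hw z hz

    nlinarith [sq_nonneg (w z - 1)]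

end Pool.Agent.Helper2.PackAP
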