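import Mathlib
import Pool.Agent.Helper2.PackAPA

set_option autoImplicit false

namespace Pool.Agent.Helper2.PackAP

/-- The odd primes up to `n`. -/
def oddPrimes (n : ℕ) : Finset ℕ := (Finset.Icc 3 n).filter Nat.Prime

theorem coprime_odd {p q : ℕ} (hp : p.Prime) (hq : q.Prime) (h3p : 3 ≤ p) (hpq : p ≠ q) :
    IsCoprime (p : ℤ) (2 * q : ℤ) := by
  have h1 : Nat.Coprime p q := (Nat.coprime_primes hp hq).2 hpq
  have h2 : Nat.Coprime p 2 := by
    rw [Nat.coprime_primes hp Nat.prime_two]; omega
  have h3 : Nat.Coprime p (2 * q) := Nat.Coprime.mul_right h2 h1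
  have := Nat.isCoprime_iff_coprime.2 h3
  push_cast at this
  exact this

theorem coprime_pr {p q : ℕ} (hp : p.Prime) (hq : q.Prime) (hpq : p ≠ q) :
    IsCoprime (p : ℤ) (q : ℤ) := Nat.isCoprime_iff_coprime.2 ((Nat.coprime_primes hp hq).2 hpq)

/-- One parity class. -/
theorem class_bound (n m : ℕ) (s : ℕ → ℤ)
    (hin : ∀ d : ℕ, 1 ≤ d → d ≤ n → ∀ k : ℤ, 1 ≤ k → k ≤ n → 1 ≤ s d + k * d ∧ s d + k * d ≤ m)
    (hdis : ∀ d e : ℕ, 1 ≤ d → d ≤ n → 1 ≤ e → e ≤ n → d ≠ e →
      ∀ k l : ℤ, 1 ≤ k → k ≤ n → 1 ≤ l → l ≤ n → s d + k * d ≠ s e + l * e) (r : ℤ) :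
    ∑ p ∈ oddPrimes n, (if 3 * p ≤ n ∧ s (2 * p) % 2 = r then (2 * p : ℤ) * (n - 2 * p)
      else (p : ℤ) * (n - p)) ≤ m := by
  classical
  set g : ℕ → ℕ := fun p => if 3 * p ≤ n ∧ s (2 * p) % 2 = r then 2 * p else p with hg
  have hmem : ∀ p ∈ oddPrimes n, 3 ≤ p ∧ p ≤ n ∧ p.Prime := by
    intro p hp
    simp only [oddPrimes, Finset.mem_filter, Finset.mem_Icc] at hp
    exact ⟨hp.1.1, hp.1.2, hp.2⟩
  have hgb : ∀ p ∈ oddPrimes n, 1 ≤ g p ∧ g p ≤ n := by
    intro p hp
    obtain ⟨h1, h2, h3⟩ := hmem p hp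
    simp only [hg]
    split_ifs with h
    · omega
    · omega
  have key := chain_total (n : ℤ) (m : ℤ) (fun p => ((g p : ℕ) : ℤ))
    (fun p => s (g p) + g p) (oddPrimes n) (by positivity)
    (by
      intro p hp q hq hpq hle
      obtain ⟨hp1, hp2, hp3⟩ := hmem p hp
      obtain ⟨hq1, hq2, hq3⟩ := hmem q hq
      obtain ⟨hgp1, hgp2⟩ := hgb p hp
      obtain ⟨hgq1, hgq2⟩ := hgb q hq
      have hgne : g p ≠ g q := by
        simp only [hg]
        split_ifs with h1 h2 h2
        · omega
        · intro h; exact absurd (hq3.eq_one_or_self_of_dvd 2 ⟨p, h.symm⟩) (by omega)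
        · intro h; exact absurd (hp3.eq_one_or_self_of_dvd 2 ⟨q, h⟩) (by omega)
        · exact hpq
      have hd := hdis (g p) (g q) hgp1 hgp2 hgq1 hgq2 hgne
      by_cases hco : IsCoprime ((g p : ℕ) : ℤ) ((g q : ℕ) : ℤ)
      · have := gap (n : ℤ) (g p) (g q) (by exact_mod_cast hgp1) (by exact_mod_cast hgp2)
          (by exact_mod_cast hgq1) (by exact_mod_cast hgq2) hco _ _ hle
          (by
            intro i j hi0 hi1 hj0 hj1 he
            apply hd (i + 1) (j + 1) (by omega) (by omega) (by omega) (by omega)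
            linarith)
        have h0 : (0 : ℤ) ≤ g q := by positivity
        nlinarith
      · -- both doubled
        have hdp : 3 * p ≤ n ∧ s (2 * p) % 2 = r := by
          by_contra h
          have hgp : g p = p := by simp only [hg]; rw [if_neg h]
          apply hco
          rw [hgp]
          by_cases h' : 3 * q ≤ n ∧ s (2 * q) % 2 = r
          · have hgq : g q = 2 * q := by simp only [hg]; rw [if_pos h']
            rw [hgq]; push_cast
            exact coprime_odd hp3 hq3 hp1 hpq
          · have hgq : g q = q := by simp only [hg]; rw [if_neg h']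
            rw [hgq]
            exact coprime_pr hp3 hq3 hpq
        have hdq : 3 * q ≤ n ∧ s (2 * q) % 2 = r := by
          by_contra h
          have hgp : g p = 2 * p := by simp only [hg]; rw [if_pos hdp]
          have hgq : g q = q := by simp only [hg]; rw [if_neg h]
          apply hco
          rw [hgp, hgq]; push_cast
          exact (coprime_odd hq3 hp3 hq1 (Ne.symm hpq)).symm
        have hgp : g p = 2 * p := by simp only [hg]; rw [if_pos hdp]
        have hgq : g q = 2 * q := by simp only [hg]; rw [if_pos hdq]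
        rw [hgp, hgq] at hle hd ⊢
        push_cast at hle hd ⊢
        -- parity
        obtain ⟨δ, hδ⟩ : ∃ δ : ℤ, s (2 * q) - s (2 * p) = 2 * δ := by
          have h1 := hdp.2
          have h2 := hdq.2
          exact ⟨(s (2 * q) - s (2 * p)) / 2, by omega⟩
        have := gap (n : ℤ) p q (by exact_mod_cast (by omega : 1 ≤ p)) (by exact_mod_cast hp2)
          (by exact_mod_cast (by omega : 1 ≤ q)) (by exact_mod_cast hq2) (coprime_pr hp3 hq3 hpq)
          0 (δ + q - p) (by linarith)
          (by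
            intro i j hi0 hi1 hj0 hj1 he
            apply hd (i + 1) (j + 1) (by omega) (by omega) (by omega) (by omega)
            have : s (2 * q) = s (2 * p) + 2 * δ := by linarith
            rw [this]
            linear_combination 2 * he)
        have h0 : (0 : ℤ) ≤ q := by positivity
        have h0' : (0 : ℤ) ≤ p := by positivity
        have h1 : (0 : ℤ) ≤ (p : ℤ) * q := by positivity
        nlinarith)
    (by
      intro p hp
      obtain ⟨h1, h2⟩ := hgb p hp
      have := (hin (g p) h1 h2 1 le_rfl (by omega)).1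
      linarith)
    (by
      intro p hp
      obtain ⟨h1, h2⟩ := hgb p hp
      have := (hin (g p) h1 h2 n (by omega) le_rfl).2
      linarith)
    (by
      intro p hp
      obtain ⟨h1, h2⟩ := hgb p hp
      exact_mod_cast h1)
  refine le_trans (le_of_eq ?_) key
  apply Finset.sum_congr rfl
  intro p hp
  simp only [hg]
  split_ifs with h
  · push_cast; ring
  · ring

/-- The combinatorial lower bound. -/
theorem comb_bound (n m : ℕ) (s : ℕ → ℤ)
    (hin : ∀ d : ℕ, 1 ≤ d → d ≤ n → ∀ k : ℤ, 1 ≤ k → k ≤ n → 1 ≤ s d + k * d ∧ s d + k * d ≤ m)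
    (hdis : ∀ d e : ℕ, 1 ≤ d → d ≤ n → 1 ≤ e → e ≤ n → d ≠ e →
      ∀ k l : ℤ, 1 ≤ k → k ≤ n → 1 ≤ l → l ≤ n → s d + k * d ≠ s e + l * e) :
    ∑ p ∈ oddPrimes n, (2 * ((p : ℤ) * (n - p)) + if 3 * p ≤ n then (p : ℤ) * (n - 3 * p) else 0)
      ≤ 2 * m := by
  have h0 := class_bound n m s hin hdis 0
  have h1 := class_bound n m s hin hdis 1
  have h2 := add_le_add h0 h1
  rw [← Finset.sum_add_distrib] at h2
  refine le_trans (le_of_eq ?_) (le_trans h2 (by linarith))
  apply Finset.sum_congr rfl
  intro p hp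
  by_cases h : 3 * p ≤ n
  · rcases Int.emod_two_eq_zero_or_one (s (2 * p)) with h' | h'
    · simp only [h, h', true_and, if_true]
      norm_num
      ring
    · simp only [h, h', true_and, if_true]
      norm_num
      ring
  · simp only [h, false_and, if_false]
    ring

end Pool.Agent.Helper2.PackAP
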