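import Mathlib
import Pool.Agent.Helper2.PackAPB

set_option autoImplicit false

namespace Pool.Agent.Helper2.PackAP

open Finset

/-- `∑ log n / n²` converges. -/
theorem summable_log_div_sq : Summable (fun n : ℕ => Real.log n / (n : ℝ) ^ 2) := by
  have h1 : Summable (fun n : ℕ => 2 * (1 / (n : ℝ) ^ (3 / 2 : ℝ))) :=
    (Real.summable_one_div_nat_rpow.2 (by norm_num)).mul_left 2
  refine Summable.of_nonneg_of_le (fun n => div_nonneg (Real.log_natCast_nonneg n) (by positivity))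
    (fun n => ?_) h1
  rcases Nat.eq_zero_or_pos n with rfl | hn
  · simp
  have hn' : (0 : ℝ) < n := by exact_mod_cast hn
  have h2 : Real.log n ≤ 2 * (n : ℝ) ^ (1 / 2 : ℝ) := by
    have h3 := Real.log_le_sub_one_of_pos (Real.rpow_pos_of_pos hn' (1 / 2 : ℝ))
    rw [Real.log_rpow hn'] at h3
    linarith
  have h4 : (n : ℝ) ^ (3 / 2 : ℝ) * (n : ℝ) ^ (1 / 2 : ℝ) = (n : ℝ) ^ 2 := by
    rw [← Real.rpow_add hn', ← Real.rpow_natCast]
    norm_num
  have h5 : (0 : ℝ) < (n : ℝ) ^ (3 / 2 : ℝ) := Real.rpow_pos_of_pos hn' _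
  rw [← h4, div_le_iff₀ (by positivity)]
  calc Real.log n ≤ 2 * (n : ℝ) ^ (1 / 2 : ℝ) := h2
    _ = 2 * (1 / (n : ℝ) ^ (3 / 2 : ℝ)) * ((n : ℝ) ^ (3 / 2 : ℝ) * (n : ℝ) ^ (1 / 2 : ℝ)) := by
        field_simp

/-- Lower bound of Mertens. -/
theorem mertens_lower : ∃ C : ℝ, 0 ≤ C ∧ ∀ N : ℕ, 1 ≤ N →
    Real.log N - C ≤ ∑ p ∈ oddPrimes N, Real.log p / p := by
  set S := ∑' n : ℕ, Real.log n / (n : ℝ) ^ 2 with hS
  have hS0 : 0 ≤ S := tsum_nonneg (fun n => div_nonneg (Real.log_natCast_nonneg n) (by positivity))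
  refine ⟨1 + Real.log 2 + 2 * S, by
    have := Real.log_nonneg (by norm_num : (1 : ℝ) ≤ 2); linarith, ?_⟩
  intro N hN
  have hN' : (0 : ℝ) < N := by exact_mod_cast hN
  -- log N! ≥ N log N - N
  have h1 : (N : ℝ) * Real.log N - N ≤ Real.log (N.factorial) := by
    have h2 := Real.pow_div_factorial_le_exp (x := (N : ℝ)) hN'.le N
    have hf : (0 : ℝ) < (N.factorial : ℝ) := by exact_mod_cast Nat.factorial_pos N
    have h3 : Real.log ((N : ℝ) ^ N / (N.factorial : ℝ)) ≤ N := by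
      exact (Real.log_le_iff_le_exp (div_pos (pow_pos hN' N) hf)).2 h2
    rw [Real.log_div (pow_pos hN' N).ne' hf.ne', Real.log_pow] at h3
    linarith
  -- log N! ≤ N ∑ log p / (p - 1)
  have h2 : Real.log (N.factorial) ≤ ∑ p ∈ (Finset.Icc 2 N).filter Nat.Prime,
      N * (Real.log p / ((p : ℝ) - 1)) := by
    rw [Real.log_nat_eq_sum_factorization, Finsupp.sum]
    have hsub : (N.factorial).factorization.support ⊆ (Finset.Icc 2 N).filter Nat.Prime := by
      intro p hp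
      rw [Nat.support_factorization, Nat.mem_primeFactors] at hp
      simp only [Finset.mem_filter, Finset.mem_Icc]
      exact ⟨⟨hp.1.two_le, (hp.1.dvd_factorial).1 hp.2.1⟩, hp.1⟩
    refine le_trans (Finset.sum_le_sum_of_subset_of_nonneg hsub ?_) (Finset.sum_le_sum ?_)
    · intro p _ _
      exact mul_nonneg (Nat.cast_nonneg _) (Real.log_natCast_nonneg p)
    · intro p hp
      simp only [Finset.mem_filter, Finset.mem_Icc] at hp
      have hp2 : (2 : ℝ) ≤ p := by exact_mod_cast hp.1.1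
      have h3 := Nat.factorization_factorial_le_div_pred hp.2 N
      have h4 : (((N.factorial).factorization p : ℕ) : ℝ) ≤ (N : ℝ) / ((p : ℝ) - 1) := by
        have h5 : (((N.factorial).factorization p : ℕ) : ℝ) ≤ ((N / (p - 1) : ℕ) : ℝ) := by
          exact_mod_cast h3
        refine le_trans h5 (le_trans Nat.cast_div_le ?_)
        rw [Nat.cast_sub (by omega)]
        simp
      calc (((N.factorial).factorization p : ℕ) : ℝ) * Real.log p
          ≤ (N : ℝ) / ((p : ℝ) - 1) * Real.log p :=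
            mul_le_mul_of_nonneg_right h4 (Real.log_natCast_nonneg p)
        _ = N * (Real.log p / ((p : ℝ) - 1)) := by ring
  -- split
  have h3 : ∑ p ∈ (Finset.Icc 2 N).filter Nat.Prime, Real.log p / ((p : ℝ) - 1)
      ≤ ∑ p ∈ oddPrimes N, Real.log p / p + Real.log 2 + 2 * S := by
    have h4 : ∀ p ∈ (Finset.Icc 2 N).filter Nat.Prime, Real.log p / ((p : ℝ) - 1)
        ≤ (if 3 ≤ p then Real.log p / p else 0) + (if p = 2 then Real.log 2 / 2 else 0)
          + 2 * (Real.log p / (p : ℝ) ^ 2) := by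
      intro p hp
      simp only [Finset.mem_filter, Finset.mem_Icc] at hp
      have hp2 : (2 : ℝ) ≤ p := by exact_mod_cast hp.1.1
      have hl : 0 ≤ Real.log p := Real.log_natCast_nonneg p
      have h5 : Real.log p / ((p : ℝ) - 1) ≤ Real.log p / p + 2 * (Real.log p / (p : ℝ) ^ 2) := by
        have : Real.log p / p + 2 * (Real.log p / (p : ℝ) ^ 2) - Real.log p / ((p : ℝ) - 1)
            = Real.log p * (p - 2) / ((p : ℝ) ^ 2 * (p - 1)) := by
          have : (p : ℝ) - 1 ≠ 0 := by linarith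
          have : (p : ℝ) ≠ 0 := by linarith
          field_simp
          ring
        have h6 : 0 ≤ Real.log p * (p - 2) / ((p : ℝ) ^ 2 * (p - 1)) := by
          apply div_nonneg (mul_nonneg hl (by linarith))
          exact mul_nonneg (by positivity) (by linarith)
        linarith
      by_cases h3p : 3 ≤ p
      · have : p ≠ 2 := by omega
        simp only [h3p, if_true, this, if_false]
        linarith
      · have : p = 2 := by omega
        subst this
        simp only [h3p, if_false, if_true]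
        push_cast at h5 ⊢
        linarith
    refine le_trans (Finset.sum_le_sum h4) ?_
    rw [Finset.sum_add_distrib, Finset.sum_add_distrib, ← Finset.mul_sum]
    have h5 : ∑ p ∈ (Finset.Icc 2 N).filter Nat.Prime, (if 3 ≤ p then Real.log p / (p : ℝ) else 0)
        = ∑ p ∈ oddPrimes N, Real.log p / p := by
      rw [← Finset.sum_filter]
      apply Finset.sum_congr _ (fun _ _ => rfl)
      ext p
      simp only [oddPrimes, Finset.mem_filter, Finset.mem_Icc]
      constructor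
      · rintro ⟨⟨⟨h1, h2⟩, h3⟩, h4⟩; exact ⟨⟨h4, h2⟩, h3⟩
      · rintro ⟨⟨h1, h2⟩, h3⟩; exact ⟨⟨⟨by omega, h2⟩, h3⟩, h1⟩
    have h6 : ∑ p ∈ (Finset.Icc 2 N).filter Nat.Prime, (if p = 2 then Real.log 2 / 2 else 0)
        ≤ Real.log 2 := by
      have hl2 := Real.log_nonneg (by norm_num : (1 : ℝ) ≤ 2)
      rw [Finset.sum_ite_eq']
      split_ifs
      · linarith
      · exact hl2
    have h7 : ∑ p ∈ (Finset.Icc 2 N).filter Nat.Prime, Real.log p / (p : ℝ) ^ 2 ≤ S :=
      summable_log_div_sq.sum_le_tsum _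
        (fun n _ => div_nonneg (Real.log_natCast_nonneg n) (by positivity))
    linarith
  rw [← Finset.mul_sum] at h2
  have h4 : (N : ℝ) * Real.log N - N ≤ N * (∑ p ∈ oddPrimes N, Real.log p / p + Real.log 2 + 2 * S) :=
    le_trans h1 (le_trans h2 (mul_le_mul_of_nonneg_left h3 hN'.le))
  have h5 : (N : ℝ) * (Real.log N - 1) ≤ N * (∑ p ∈ oddPrimes N, Real.log p / p + Real.log 2 + 2 * S) := by
    linarith
  have h6 := le_of_mul_le_mul_left h5 hN'
  linarith

/-- One-step inequality. -/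
theorem step_ineq (x a : ℝ) (hx : 1 ≤ x) (hax : a ≤ x) :
    (1 / (2 * x ^ 2) - a / (3 * x ^ 3)) - (1 / (2 * (x + 1) ^ 2) - a / (3 * (x + 1) ^ 3))
      - 8 / x ^ 3 + 8 / (x + 1) ^ 3 ≤ (x - a) / x ^ 4 := by
  have hx0 : x ≠ 0 := by linarith
  have hx1 : x + 1 ≠ 0 := by linarith
  have key : (x - a) / x ^ 4 - ((1 / (2 * x ^ 2) - a / (3 * x ^ 3))
      - (1 / (2 * (x + 1) ^ 2) - a / (3 * (x + 1) ^ 3)) - 8 / x ^ 3 + 8 / (x + 1) ^ 3)
      = ((x - a) * (12 * x ^ 2 + 16 * x + 6) + (141 * x ^ 3 + 143 * x ^ 2 + 48 * x))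
        / (6 * x ^ 4 * (x + 1) ^ 3) := by
    field_simp
    ring
  have : 0 ≤ ((x - a) * (12 * x ^ 2 + 16 * x + 6) + (141 * x ^ 3 + 143 * x ^ 2 + 48 * x))
        / (6 * x ^ 4 * (x + 1) ^ 3) := by
    have h1 : 0 ≤ x - a := by linarith
    have h2 : 0 ≤ x := by linarith
    positivity
  linarith

theorem inner_sum (a : ℕ) (ha : 1 ≤ a) (X : ℕ) (hX : a ≤ X) :
    1 / (6 * (a : ℝ) ^ 2) - 8 / (a : ℝ) ^ 3 - 1 / (2 * ((X : ℝ) + 1) ^ 2)
      ≤ ∑ n ∈ Finset.Icc a X, ((n : ℝ) - a) / (n : ℝ) ^ 4 := by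
  have ha' : (1 : ℝ) ≤ a := by exact_mod_cast ha
  have main : ∀ X : ℕ, a ≤ X →
      (1 / (2 * (a : ℝ) ^ 2) - (a : ℝ) / (3 * (a : ℝ) ^ 3)) - 8 / (a : ℝ) ^ 3
        - (1 / (2 * ((X : ℝ) + 1) ^ 2) - a / (3 * ((X : ℝ) + 1) ^ 3)) + 8 / ((X : ℝ) + 1) ^ 3
        ≤ ∑ n ∈ Finset.Icc a X, ((n : ℝ) - a) / (n : ℝ) ^ 4 := by
    intro X hX
    induction X, hX using Nat.le_induction with
    | base =>
      have := step_ineq (a : ℝ) a ha' le_rfl
      simp only [Finset.Icc_self, Finset.sum_singleton]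
      linarith
    | succ X hX ih =>
      rw [Finset.sum_Icc_succ_top (by omega)]
      have hX' : (a : ℝ) ≤ X := by exact_mod_cast hX
      have := step_ineq ((X : ℝ) + 1) a (by linarith) (by linarith)
      push_cast
      linarith
  have h1 := main X hX
  have h2 : 1 / (2 * (a : ℝ) ^ 2) - (a : ℝ) / (3 * (a : ℝ) ^ 3) = 1 / (6 * (a : ℝ) ^ 2) := by
    field_simp; norm_num
  have h3 : (0 : ℝ) ≤ a / (3 * ((X : ℝ) + 1) ^ 3) := by positivity
  have h4 : (0 : ℝ) ≤ 8 / ((X : ℝ) + 1) ^ 3 := by positivity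
  linarith

end Pool.Agent.Helper2.PackAP
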