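import Mathlib

set_option autoImplicit false

namespace Pool.Agent.Helper2.BalWord

/-! ### The bits `z s n = ∑_c binom(s,c) n_c (mod 2)` -/

/-- `z s n` is the sum modulo 2 of `binom(s,c) * n_c`, where `n_c` are the binary digits of `n`. -/
def z : ℕ → ℕ → Bool
  | 0, n => n.testBit 0
  | s + 1, n => xor (z s n) (z s (n / 2))

theorem z_succ (s n : ℕ) : z (s + 1) n = xor (z s n) (z s (n / 2)) := rfl

theorem z_zero' (n : ℕ) : z 0 n = n.testBit 0 := rfl

theorem z_nat_zero (s : ℕ) : z s 0 = false := by
  induction s with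
  | zero => simp [z]
  | succ s ih => simp [z_succ, ih]

theorem half_mod (n m : ℕ) : (n / 2) % 2 ^ m = (n % 2 ^ (m + 1)) / 2 := by
  rw [pow_succ', Nat.mod_mul_right_div_self]

theorem z_mod (s : ℕ) : ∀ n n' : ℕ, n % 2 ^ (s + 1) = n' % 2 ^ (s + 1) → z s n = z s n' := by
  induction s with
  | zero =>
    intro n n' h
    simp only [z, Nat.testBit_zero]
    simp at h
    rw [h]
  | succ s ih =>
    intro n n' h
    rw [z_succ, z_succ]
    have h1 : n % 2 ^ (s + 1) = n' % 2 ^ (s + 1) := by
      have := congrArg (· % 2 ^ (s + 1)) h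
      simpa [Nat.mod_mod_of_dvd, pow_dvd_pow] using this
    have h2 : (n / 2) % 2 ^ (s + 1) = (n' / 2) % 2 ^ (s + 1) := by
      rw [half_mod, half_mod, h]
    rw [ih n n' h1, ih _ _ h2]

theorem z_mod' {s m : ℕ} (hs : s < m) {n n' : ℕ} (h : n % 2 ^ m = n' % 2 ^ m) :
    z s n = z s n' := by
  apply z_mod
  have := congrArg (· % 2 ^ (s + 1)) h
  have hd : 2 ^ (s + 1) ∣ 2 ^ m := pow_dvd_pow 2 hs
  simpa [Nat.mod_mod_of_dvd _ hd] using this

theorem z_inj_low (m : ℕ) : ∀ n n' : ℕ, (∀ s < m, z s n = z s n') → n % 2 ^ m = n' % 2 ^ m := by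
  induction m with
  | zero => intro n n' _; simp [Nat.mod_one]
  | succ m ih =>
    intro n n' h
    have h0 : n % 2 = n' % 2 := by
      have := h 0 (Nat.succ_pos m)
      simp only [z, Nat.testBit_zero, decide_eq_decide] at this
      omega
    have h1 : (n / 2) % 2 ^ m = (n' / 2) % 2 ^ m := by
      apply ih
      intro s hs
      have a := h s (by omega)
      have c := h (s + 1) (by omega)
      rw [z_succ, z_succ, a] at c
      exact Bool.xor_right_inj.mp c
    have e1 : n % 2 ^ (m + 1) = 2 * ((n / 2) % 2 ^ m) + n % 2 := by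
      rw [half_mod]
      have : n % 2 ^ (m + 1) % 2 = n % 2 := Nat.mod_mod_of_dvd _ (dvd_pow_self 2 (by omega))
      omega
    have e2 : n' % 2 ^ (m + 1) = 2 * ((n' / 2) % 2 ^ m) + n' % 2 := by
      rw [half_mod]
      have : n' % 2 ^ (m + 1) % 2 = n' % 2 := Nat.mod_mod_of_dvd _ (dvd_pow_self 2 (by omega))
      omega
    rw [e1, e2, h0, h1]

theorem z_parity (s : ℕ) : ∀ n n' : ℕ, n / 2 = n' / 2 → z s n = z s n' → n = n' := by
  induction s with
  | zero =>
    intro n n' h1 h2
    simp only [z, Nat.testBit_zero, decide_eq_decide] at h2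
    omega
  | succ s ih =>
    intro n n' h1 h2
    rw [z_succ, z_succ, h1] at h2
    exact ih n n' h1 (Bool.xor_left_inj.mp h2)

theorem z_inj_win (m : ℕ) : ∀ s n n' : ℕ, n / 2 ^ m = n' / 2 ^ m →
    (∀ t < m, z (s + t) n = z (s + t) n') → n = n' := by
  induction m with
  | zero => intro s n n' h _; simpa using h
  | succ m ih =>
    intro s n n' h1 h2
    have h3 : n / 2 = n' / 2 := by
      apply ih s
      · rw [Nat.div_div_eq_div_mul, Nat.div_div_eq_div_mul, ← pow_succ']
        exact h1
      · intro t ht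
        have a := h2 t (by omega)
        have c := h2 (t + 1) (by omega)
        rw [← Nat.add_assoc, z_succ, z_succ, a] at c
        exact Bool.xor_right_inj.mp c
    exact z_parity s n n' h3 (by simpa using h2 0 (Nat.succ_pos m))

theorem z_exists_win (m : ℕ) : ∀ (s k : ℕ) (ε : ℕ → Bool),
    ∃ n, n / 2 ^ m = k ∧ ∀ t < m, z (s + t) n = ε t := by
  induction m with
  | zero => intro s k ε; exact ⟨k, by simp, by intro t ht; omega⟩
  | succ m ih =>
    intro s k ε
    obtain ⟨n', h1, h2⟩ := ih s k (fun t => xor (ε t) (ε (t + 1)))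
    have hx : ∃ n, n / 2 = n' ∧ z s n = ε 0 := by
      by_cases h : z s (2 * n') = ε 0
      · exact ⟨2 * n', by omega, h⟩
      · refine ⟨2 * n' + 1, by omega, ?_⟩
        by_contra h'
        have : z s (2 * n') = z s (2 * n' + 1) := by
          revert h h'
          cases z s (2 * n') <;> cases z s (2 * n' + 1) <;> cases ε 0 <;> simp
        have := z_parity s _ _ (by omega) this
        omega
    obtain ⟨n, hn1, hn2⟩ := hx
    refine ⟨n, ?_, ?_⟩
    · rw [pow_succ', ← Nat.div_div_eq_div_mul, hn1, h1]
    · intro t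
      induction t with
      | zero => intro _; simpa using hn2
      | succ t iht =>
        intro ht
        rw [← Nat.add_assoc, z_succ, iht (by omega), hn1, h2 t (by omega)]
        cases ε t <;> cases ε (t + 1) <;> rfl

theorem z_shift (β : ℕ) : ∀ s n : ℕ,
    z (s + 2 ^ β) n = xor (z s n) (z s (n / 2 ^ (2 ^ β))) := by
  induction β with
  | zero => intro s n; simp [z_succ]
  | succ β ih =>
    intro s n
    have e : s + 2 ^ (β + 1) = (s + 2 ^ β) + 2 ^ β := by rw [pow_succ]; ring
    have e2 : n / 2 ^ (2 ^ β) / 2 ^ (2 ^ β) = n / 2 ^ (2 ^ (β + 1)) := by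
      rw [Nat.div_div_eq_div_mul, ← pow_add]
      congr 2
      rw [pow_succ]; ring
    rw [e, ih, ih, ih, e2]
    cases z s n <;> cases z s (n / 2 ^ 2 ^ β) <;> cases z s (n / 2 ^ 2 ^ (β + 1)) <;> rfl

/-! ### Balanced counting functions -/

/-- `Bal C f`: increments of `f` over intervals of equal length differ by at most `C`. -/
def Bal (C : ℕ) (f : ℕ → ℕ) : Prop := ∀ a b l : ℕ, f (a + l) + f b ≤ f (b + l) + f a + C

theorem Bal.mono {C C' : ℕ} {f : ℕ → ℕ} (h : Bal C f) (hC : C ≤ C') : Bal C' f := by
  intro a b l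
  have := h a b l
  omega

theorem Bal.add {C C' : ℕ} {f g : ℕ → ℕ} (h : Bal C f) (h' : Bal C' g) :
    Bal (C + C') (fun n => f n + g n) := by
  intro a b l
  have := h a b l
  have := h' a b l
  dsimp only
  omega

theorem Bal.zero : Bal 0 (fun _ => 0) := by
  intro a b l
  simp

theorem Bal.mul_arg {C : ℕ} {f : ℕ → ℕ} (h : Bal C f) (K : ℕ) : Bal C (fun n => f (K * n)) := by
  intro a b l
  have := h (K * a) (K * b) (K * l)
  simpa [Nat.mul_add] using this

theorem Bal.sum {ι : Type*} (s : Finset ι) {C : ℕ} {f : ι → ℕ → ℕ} (h : ∀ i ∈ s, Bal C (f i)) :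
    Bal (s.card * C) (fun n => ∑ i ∈ s, f i n) := by
  classical
  induction s using Finset.induction_on with
  | empty => simpa using Bal.zero
  | insert a s ha ih =>
    have h1 := h a (Finset.mem_insert_self a s)
    have h2 := ih (fun i hi => h i (Finset.mem_insert_of_mem hi))
    have h3 := h1.add h2
    rw [Finset.card_insert_of_notMem ha]
    have e : (fun n => ∑ i ∈ insert a s, f i n) = (fun n => f a n + ∑ i ∈ s, f i n) := by
      funext n
      rw [Finset.sum_insert ha]
    rw [e]
    exact h3.mono (by ring_nf; omega)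

/-- Number of `k < n` with `p k`. -/
noncomputable def cnt (p : ℕ → Prop) (n : ℕ) : ℕ := @Nat.count p (Classical.decPred p) n

@[simp] theorem cnt_zero (p : ℕ → Prop) : cnt p 0 = 0 := by
  simp [cnt]

open Classical in
theorem cnt_succ (p : ℕ → Prop) (n : ℕ) : cnt p (n + 1) = cnt p n + if p n then 1 else 0 := by
  unfold cnt
  rw [Nat.count_succ]

theorem cnt_add (p : ℕ → Prop) (a b : ℕ) : cnt p (a + b) = cnt p a + cnt (fun k => p (a + k)) b := by
  unfold cnt
  exact @Nat.count_add p (Classical.decPred p) a b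

theorem cnt_monotone (p : ℕ → Prop) : Monotone (cnt p) := @Nat.count_monotone p (Classical.decPred p)

open Classical in
theorem cnt_eq_card (p : ℕ → Prop) (n : ℕ) : cnt p n = ((Finset.range n).filter p).card := by
  unfold cnt
  rw [Nat.count_eq_card_filter_range]

theorem cnt_congr {p q : ℕ → Prop} (h : ∀ n, p n ↔ q n) : cnt p = cnt q := by
  have : p = q := funext fun n => propext (h n)
  rw [this]

theorem cnt_false {p : ℕ → Prop} (h : ∀ n, ¬ p n) : cnt p = fun _ => 0 := by
  classical
  funext n
  rw [cnt_eq_card]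
  simp [h]

theorem count_le_add (p : ℕ → Prop) (a l : ℕ) : cnt p (a + l) ≤ cnt p a + l := by
  induction l with
  | zero => simp
  | succ l ih =>
    rw [← Nat.add_assoc, cnt_succ]
    split_ifs <;> omega

theorem count_mono (p : ℕ → Prop) {a b : ℕ} (h : a ≤ b) : cnt p a ≤ cnt p b :=
  cnt_monotone p h

/-- If the counting function is balanced along multiples of `K`, it is balanced. -/
theorem Bal.coarse {C : ℕ} (p : ℕ → Prop) (K : ℕ) (hK : 0 < K)
    (h : Bal C (fun n => cnt p (K * n))) : Bal (C + 3 * K) (cnt p) := by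
  intro a b l
  have h0 := h (a / K) (b / K) (l / K)
  dsimp only at h0
  have ha := Nat.div_add_mod a K
  have hb := Nat.div_add_mod b K
  have hl := Nat.div_add_mod l K
  have ha' := Nat.mod_lt a hK
  have hb' := Nat.mod_lt b hK
  have hl' := Nat.mod_lt l hK
  have e1 : K * (a / K + l / K) = K * (a / K) + K * (l / K) := by ring
  have e2 : K * (b / K + l / K) = K * (b / K) + K * (l / K) := by ring
  have h1 : cnt p (a + l) ≤ cnt p (K * (a / K + l / K)) + 2 * K := by
    refine le_trans (count_mono p ?_) (count_le_add p _ _)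
    omega
  have h2 : cnt p (K * (a / K)) ≤ cnt p a := count_mono p (by omega)
  have h3 : cnt p (K * (b / K + l / K)) ≤ cnt p (b + l) := count_mono p (by omega)
  have h4 : cnt p b ≤ cnt p (K * (b / K)) + K := by
    refine le_trans (count_mono p ?_) (count_le_add p _ _)
    omega
  omega

/-- Restriction to a residue class. -/
theorem count_class (q : ℕ → Prop) (L r : ℕ) (hr : r < L) (t : ℕ) :
    cnt (fun k => k % L = r ∧ q (k / L)) t = cnt q ((t + (L - 1 - r)) / L) := by
  have hL : 0 < L := by omega
  induction t with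
  | zero =>
    have : (0 + (L - 1 - r)) / L = 0 := Nat.div_eq_of_lt (by omega)
    rw [this]
    simp
  | succ t ih =>
    rw [cnt_succ, ih]
    have hm := Nat.div_add_mod t L
    have hlt := Nat.mod_lt t hL
    by_cases h : t % L = r
    · have e1 : (t + (L - 1 - r)) / L = t / L := by
        apply Nat.div_eq_of_lt_le
        · rw [Nat.mul_comm]; omega
        · rw [Nat.add_mul, Nat.mul_comm]; omega
      have e2 : (t + 1 + (L - 1 - r)) / L = t / L + 1 := by
        apply Nat.div_eq_of_lt_le
        · rw [Nat.add_mul, Nat.mul_comm]; omega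
        · rw [Nat.add_mul, Nat.add_mul, Nat.mul_comm]; omega
      rw [e1, e2, cnt_succ]
      by_cases hq : q (t / L)
      · rw [if_pos ⟨h, hq⟩, if_pos hq]
      · rw [if_neg (fun h' => hq h'.2), if_neg hq]
    · have e1 : (t + 1 + (L - 1 - r)) / L = (t + (L - 1 - r)) / L := by
        rcases lt_or_gt_of_ne h with h' | h'
        · have a1 : (t + 1 + (L - 1 - r)) / L = t / L := by
            apply Nat.div_eq_of_lt_le
            · rw [Nat.mul_comm]; omega
            · rw [Nat.add_mul, Nat.mul_comm]; omega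
          have a2 : (t + (L - 1 - r)) / L = t / L := by
            apply Nat.div_eq_of_lt_le
            · rw [Nat.mul_comm]; omega
            · rw [Nat.add_mul, Nat.mul_comm]; omega
          rw [a1, a2]
        · have a1 : (t + 1 + (L - 1 - r)) / L = t / L + 1 := by
            apply Nat.div_eq_of_lt_le
            · rw [Nat.add_mul, Nat.mul_comm]; omega
            · rw [Nat.add_mul, Nat.add_mul, Nat.mul_comm]; omega
          have a2 : (t + (L - 1 - r)) / L = t / L + 1 := by
            apply Nat.div_eq_of_lt_le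
            · rw [Nat.add_mul, Nat.mul_comm]; omega
            · rw [Nat.add_mul, Nat.add_mul, Nat.mul_comm]; omega
          rw [a1, a2]
      rw [e1]
      simp [h]

theorem Bal.class {C : ℕ} (q : ℕ → Prop) (L r : ℕ) (hr : r < L) (h : Bal C (cnt q)) :
    Bal (C + 2) (cnt (fun k => k % L = r ∧ q (k / L))) := by
  have hL : 0 < L := by omega
  intro a b l
  rw [count_class q L r hr, count_class q L r hr, count_class q L r hr, count_class q L r hr]
  set c := L - 1 - r with hc
  have key : ∀ u : ℕ, (u + l + c) / L = (u + c) / L + l / L ∨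
      (u + l + c) / L = (u + c) / L + l / L + 1 := by
    intro u
    have h1 := Nat.div_add_mod (u + c) L
    have h2 := Nat.div_add_mod l L
    have h1' := Nat.mod_lt (u + c) hL
    have h2' := Nat.mod_lt l hL
    have e1 : L * ((u + c) / L + l / L) = L * ((u + c) / L) + L * (l / L) := by ring
    by_cases hlt : (u + c) % L + l % L < L
    · left
      apply Nat.div_eq_of_lt_le
      · rw [Nat.mul_comm]; omega
      · rw [Nat.add_mul, Nat.mul_comm]; omega
    · right
      apply Nat.div_eq_of_lt_le
      · rw [Nat.add_mul, Nat.mul_comm]; omega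
      · rw [Nat.add_mul, Nat.add_mul, Nat.mul_comm]; omega
  have h0 := h ((a + c) / L) ((b + c) / L) (l / L)
  have ha : cnt q ((a + l + c) / L) ≤ cnt q ((a + c) / L + l / L) + 1 := by
    rcases key a with e | e
    · rw [e]; omega
    · rw [e]; exact count_le_add q _ 1
  have hb : cnt q ((b + c) / L + l / L) ≤ cnt q ((b + l + c) / L) := by
    rcases key b with e | e
    · rw [e]
    · rw [e]; exact count_mono q (by omega)
  omega

/-- One element in each aligned window (or none at all) gives balance. -/
theorem Bal.of_reg {f : ℕ → ℕ} (hf : Monotone f) (M κ : ℕ) (hM : 0 < M) (hκ : κ ≤ 1)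
    (h : ∀ k, f ((k + 1) * M) = f (k * M) + κ) : Bal 3 f := by
  have hk : ∀ k, f (k * M) = f 0 + k * κ := by
    intro k
    induction k with
    | zero => simp
    | succ k ih => rw [h, ih]; ring
  have bd : ∀ n, f 0 + (n / M) * κ ≤ f n ∧ f n ≤ f 0 + (n / M + 1) * κ := by
    intro n
    have h1 := Nat.div_add_mod n M
    have h2 := Nat.mod_lt n hM
    constructor
    · rw [← hk]; apply hf; rw [Nat.mul_comm]; omega
    · rw [← hk]; apply hf; rw [Nat.add_mul, Nat.mul_comm]; omega
  intro a b l
  have key : ∀ u : ℕ, (u + l) / M = u / M + l / M ∨ (u + l) / M = u / M + l / M + 1 := by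
    intro u
    have h1 := Nat.div_add_mod u M
    have h2 := Nat.div_add_mod l M
    have h1' := Nat.mod_lt u hM
    have h2' := Nat.mod_lt l hM
    have e1 : M * (u / M + l / M) = M * (u / M) + M * (l / M) := by ring
    by_cases hlt : u % M + l % M < M
    · left
      apply Nat.div_eq_of_lt_le
      · rw [Nat.mul_comm]; omega
      · rw [Nat.add_mul, Nat.mul_comm]; omega
    · right
      apply Nat.div_eq_of_lt_le
      · rw [Nat.add_mul, Nat.mul_comm]; omega
      · rw [Nat.add_mul, Nat.add_mul, Nat.mul_comm]; omega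
  have b1 := (bd (a + l)).2
  have b2 := (bd b).2
  have b3 := (bd (b + l)).1
  have b4 := (bd a).1
  have hκ' : κ = 0 ∨ κ = 1 := by omega
  rcases hκ' with rfl | rfl
  · omega
  · rcases key a with e | e <;> rcases key b with e' | e' <;> omega

end Pool.Agent.Helper2.BalWord
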