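import Mathlib
import Pool.Agent.Helper2.BalWordA

set_option autoImplicit false

namespace Pool.Agent.Helper2.BalWord

open Classical

theorem count_window_one (p : ℕ → Prop) (M k : ℕ) (hM : 0 < M) (h : ∃! n, n / M = k ∧ p n) :
    cnt p ((k + 1) * M) = cnt p (k * M) + 1 := by
  obtain ⟨n0, ⟨h1, h2⟩, h3⟩ := h
  rw [Nat.add_mul, Nat.one_mul, cnt_add, cnt_eq_card _ M]
  congr 1
  rw [Finset.card_eq_one]
  have hd := Nat.div_add_mod n0 M
  have hlt := Nat.mod_lt n0 hM
  refine ⟨n0 % M, ?_⟩
  ext r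
  simp only [Finset.mem_filter, Finset.mem_range, Finset.mem_singleton]
  constructor
  · rintro ⟨hr, hp⟩
    have h4 : k * M + r = n0 := by
      apply h3
      refine ⟨?_, hp⟩
      rw [Nat.mul_comm, Nat.mul_add_div hM, Nat.div_eq_of_lt hr, Nat.add_zero]
    rw [← h4, Nat.mul_comm, Nat.mul_add_mod, Nat.mod_eq_of_lt hr]
  · rintro rfl
    refine ⟨hlt, ?_⟩
    rw [← h1, Nat.mul_comm, hd]
    exact h2

/-- The bits `z j n`, `s ≤ j < t`, follow the pattern `ε`. -/
def Pat (s t : ℕ) (ε : ℕ → Bool) (n : ℕ) : Prop := ∀ j, s ≤ j → j < t → z j n = ε j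

theorem pat_unique (s t : ℕ) (hst : s ≤ t) (ε : ℕ → Bool) (k : ℕ) :
    ∃! n, n / 2 ^ (t - s) = k ∧ Pat s t ε n := by
  obtain ⟨n, h1, h2⟩ := z_exists_win (t - s) s k (fun j => ε (s + j))
  refine ⟨n, ⟨h1, ?_⟩, ?_⟩
  · intro j hj1 hj2
    have := h2 (j - s) (by omega)
    have e : s + (j - s) = j := by omega
    simpa [e] using this
  · rintro n' ⟨h1', h2'⟩
    apply z_inj_win (t - s) s
    · rw [h1, h1']
    · intro j hj
      rw [h2 j hj]
      exact h2' (s + j) (by omega) (by omega)

theorem bal_pat (s t : ℕ) (hst : s ≤ t) (ε : ℕ → Bool) : Bal 3 (cnt (Pat s t ε)) := by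
  apply Bal.of_reg (cnt_monotone _) (2 ^ (t - s)) 1 (by positivity) le_rfl
  intro k
  exact count_window_one _ _ _ (by positivity) (pat_unique s t hst ε k)

/-- Conditions on the last bits `s ≤ j < b` and the first bits `j < t`. -/
def Cyc (b s t : ℕ) (ε ε' : ℕ → Bool) (n : ℕ) : Prop := Pat s b ε n ∧ Pat 0 t ε' n

theorem bal_cyc (β b s t : ℕ) (hb : b = 2 ^ β) (hs : s ≤ b) (ht : t ≤ b) (ε ε' : ℕ → Bool) :
    Bal 3 (cnt (Cyc b s t ε ε')) := by
  by_cases hts : t ≤ s
  · apply Bal.of_reg (cnt_monotone _) (2 ^ (b - s + t)) 1 (by positivity) le_rfl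
    intro k
    apply count_window_one _ _ _ (by positivity)
    set K := k / 2 ^ (s - t) with hK
    set ε₁ : ℕ → Bool := fun j => if j < b then ε j else xor (ε' (j - b)) (z (j - b) K) with hε₁
    have hu := pat_unique s (b + t) (by omega) ε₁ k
    have e : b + t - s = b - s + t := by omega
    rw [e] at hu
    have hdiv : ∀ n, n / 2 ^ (b - s + t) = k → n / 2 ^ b = K := by
      intro n hn
      rw [hK, ← hn, Nat.div_div_eq_div_mul, ← pow_add]
      congr 2
      omega
    have hiff : ∀ n, n / 2 ^ (b - s + t) = k → (Pat s (b + t) ε₁ n ↔ Cyc b s t ε ε' n) := by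
      intro n hn
      have hK' := hdiv n hn
      have hsh : ∀ j, z (j + b) n = xor (z j n) (z j K) := by
        intro j
        rw [hb, z_shift β j n, ← hb, hK']
      constructor
      · intro h
        refine ⟨?_, ?_⟩
        · intro j h1 h2
          have := h j h1 (by omega)
          simpa [hε₁, h2] using this
        · intro j _ h2
          have := h (j + b) (by omega) (by omega)
          rw [hsh] at this
          have e2 : ¬ (j + b < b) := by omega
          simp only [hε₁, e2, if_false, Nat.add_sub_cancel] at this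
          exact Bool.xor_left_inj.mp this
      · rintro ⟨h1, h2⟩ j hj1 hj2
        by_cases hjb : j < b
        · simp only [hε₁, hjb, if_true]
          exact h1 j hj1 hjb
        · simp only [hε₁, hjb, if_false]
          have := hsh (j - b)
          have e3 : j - b + b = j := by omega
          rw [e3] at this
          rw [this, h2 (j - b) (Nat.zero_le _) (by omega)]
    obtain ⟨n, ⟨h1, h2⟩, h3⟩ := hu
    refine ⟨n, ⟨h1, (hiff n h1).1 h2⟩, ?_⟩
    rintro n' ⟨h1', h2'⟩
    exact h3 n' ⟨h1', (hiff n' h1').2 h2'⟩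
  · set p := Cyc b s t ε ε' with hp
    have hper : ∀ k r, p (k * 2 ^ b + r) ↔ p r := by
      intro k r
      have hz : ∀ j, j < b → z j (k * 2 ^ b + r) = z j r := by
        intro j hj
        apply z_mod' hj
        rw [Nat.mul_comm, Nat.mul_add_mod]
      constructor
      · rintro ⟨h1, h2⟩
        refine ⟨?_, ?_⟩
        · intro j a c
          rw [← hz j c]; exact h1 j a c
        · intro j a c
          rw [← hz j (by omega)]; exact h2 j a c
      · rintro ⟨h1, h2⟩
        refine ⟨?_, ?_⟩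
        · intro j a c
          rw [hz j c]; exact h1 j a c
        · intro j a c
          rw [hz j (by omega)]; exact h2 j a c
    apply Bal.of_reg (cnt_monotone _) (2 ^ b) (cnt p (2 ^ b)) (by positivity)
    · rw [cnt_eq_card, Finset.card_le_one]
      intro n hn n' hn'
      simp only [Finset.mem_filter, Finset.mem_range] at hn hn'
      have : n % 2 ^ b = n' % 2 ^ b := by
        apply z_inj_low
        intro j hj
        by_cases hjs : s ≤ j
        · rw [hn.2.1 j hjs hj, hn'.2.1 j hjs hj]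
        · rw [hn.2.2 j (Nat.zero_le _) (by omega), hn'.2.2 j (Nat.zero_le _) (by omega)]
      rwa [Nat.mod_eq_of_lt hn.1, Nat.mod_eq_of_lt hn'.1] at this
    · intro k
      rw [Nat.add_mul, Nat.one_mul, cnt_add]
      congr 1
      congr 1
      funext r
      exact propext (hper k r)

/-- The two orders in a group: `0 0 1 0 1 1` and `0 1 0 0 1 1`. -/
def sg (e : Bool) (d : ℕ) : ℕ :=
  if d = 0 then 0 else if d = 1 then (if e then 1 else 0) else if d = 2 then (if e then 0 else 1)
  else if d = 3 then 0 else 1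

theorem sg_le (e : Bool) (d : ℕ) : sg e d ≤ 1 := by
  unfold sg
  split_ifs <;> omega

/-- The unreduced letter at position `q`. -/
def yy (e : ℕ → Bool) (q : ℕ) : ℕ := 2 * (q / 6) + sg (e (q / 6)) (q % 6)

theorem yy_eq (e : ℕ → Bool) (J s : ℕ) (hs : s < 6) : yy e (6 * J + s) = 2 * J + sg (e J) s := by
  unfold yy
  have h1 : (6 * J + s) / 6 = J := by omega
  have h2 : (6 * J + s) % 6 = s := by omega
  rw [h1, h2]

theorem yy_eq6 (e : ℕ → Bool) (J : ℕ) : yy e (6 * J + 5 + 1) = 2 * J + 2 := by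
  have : 6 * J + 5 + 1 = 6 * (J + 1) + 0 := by ring
  rw [this, yy_eq e (J + 1) 0 (by norm_num)]
  simp [sg]
  ring

theorem countA (e : ℕ → Bool) (P : ℕ → Prop) (J : ℕ) :
    cnt (fun q => P (yy e q)) (6 * J) = 3 * cnt P (2 * J) := by
  induction J with
  | zero => simp
  | succ J ih =>
    have e1 : 6 * (J + 1) = 6 * J + 1 + 1 + 1 + 1 + 1 + 1 := by ring
    have e2 : 2 * (J + 1) = 2 * J + 1 + 1 := by ring
    rw [e1, e2]
    simp only [cnt_succ]
    rw [ih]
    have a0 := yy_eq e J 0 (by norm_num)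
    have a1 := yy_eq e J 1 (by norm_num)
    have a2 := yy_eq e J 2 (by norm_num)
    have a3 := yy_eq e J 3 (by norm_num)
    have a4 := yy_eq e J 4 (by norm_num)
    have a5 := yy_eq e J 5 (by norm_num)
    simp only [Nat.add_assoc, Nat.add_zero] at a0 a1 a2 a3 a4 a5 ⊢
    rw [a0, a1, a2, a3, a4, a5]
    cases e J <;> simp [sg] <;> split_ifs <;> omega

theorem countB (e : ℕ → Bool) (R : ℕ → ℕ → Prop) (J : ℕ) :
    cnt (fun q => R (yy e q) (yy e (q + 1))) (6 * J) =
      cnt (fun J => R (2 * J) (2 * J)) J + 2 * cnt (fun J => R (2 * J) (2 * J + 1)) J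
      + cnt (fun J => R (2 * J + 1) (2 * J)) J
      + cnt (fun J => R (2 * J + 1) (2 * J + 1)) J
      + cnt (fun J => R (2 * J + 1) (2 * J + 2)) J := by
  induction J with
  | zero => simp
  | succ J ih =>
    have e1 : 6 * (J + 1) = 6 * J + 1 + 1 + 1 + 1 + 1 + 1 := by ring
    rw [e1]
    simp only [cnt_succ]
    rw [ih]
    have a0 := yy_eq e J 0 (by norm_num)
    have a1 := yy_eq e J 1 (by norm_num)
    have a2 := yy_eq e J 2 (by norm_num)
    have a3 := yy_eq e J 3 (by norm_num)
    have a4 := yy_eq e J 4 (by norm_num)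
    have a5 := yy_eq e J 5 (by norm_num)
    have a6 := yy_eq6 e J
    simp only [Nat.add_assoc, Nat.reduceAdd, Nat.add_zero] at a0 a1 a2 a3 a4 a5 a6 ⊢
    rw [a0, a1, a2, a3, a4, a5, a6]
    cases e J <;> simp [sg] <;> split_ifs <;> omega

end Pool.Agent.Helper2.BalWord
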