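import Mathlib
import Pool.Agent.Helper2.BalWordB

set_option autoImplicit false

namespace Pool.Agent.Helper2.BalWord

open Classical

theorem count_half (p : ℕ → Prop) (i : ℕ) (hi : i < 2) (h : ∀ n, p n → n % 2 = i) (J : ℕ) :
    cnt (fun J => p (2 * J + i)) J = cnt p (2 * J) := by
  induction J with
  | zero => simp
  | succ J ih =>
    have e2 : 2 * (J + 1) = 2 * J + 1 + 1 := by ring
    rw [e2, cnt_succ, cnt_succ, cnt_succ, ih]
    have hi' : i = 0 ∨ i = 1 := by omega
    rcases hi' with rfl | rfl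
    · have : ¬ p (2 * J + 1) := by
        intro hp
        have := h _ hp
        omega
      simp [this]
    · have : ¬ p (2 * J) := by
        intro hp
        have := h _ hp
        omega
      simp [this]

theorem Bal.smul {C : ℕ} {f : ℕ → ℕ} (h : Bal C f) (k : ℕ) : Bal (k * C) (fun n => k * f n) := by
  intro a b l
  have := Nat.mul_le_mul_left k (h a b l)
  simpa [Nat.mul_add] using this

theorem pat_prefix_iff (t : ℕ) (ε : ℕ → Bool) (ν : ℕ) (hν : Pat 0 t ε ν) (n : ℕ) :
    Pat 0 t ε n ↔ n % 2 ^ t = ν % 2 ^ t := by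
  constructor
  · intro h
    apply z_inj_low
    intro j hj
    rw [h j (Nat.zero_le _) hj, hν j (Nat.zero_le _) hj]
  · intro h j h0 hj
    rw [z_mod' hj h]
    exact hν j h0 hj

theorem bal_type (β b s t : ℕ) (hb : b = 2 ^ β) (hs : s ≤ b) (ht : t ≤ b) (ht1 : 1 ≤ t)
    (ε ε' : ℕ → Bool) (i i' : ℕ) (hi : i < 2) (hi' : i' ≤ 2) :
    Bal 3 (cnt (fun J => Pat s b ε (2 * J + i) ∧ Pat 0 t ε' (2 * J + i'))) := by
  obtain ⟨ν, -, hν⟩ := z_exists_win t 0 0 ε'
  have hν' : Pat 0 t ε' ν := by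
    intro j _ hj
    simpa using hν j hj
  have h2t : 2 ≤ 2 ^ t := by
    calc 2 = 2 ^ 1 := rfl
      _ ≤ 2 ^ t := Nat.pow_le_pow_right (by norm_num) ht1
  have hdvd : 2 ∣ 2 ^ t := dvd_pow_self 2 (by omega)
  set ν' := ν + i + (2 ^ t - i') with hν'def
  have hiff : ∀ J, (2 * J + i') % 2 ^ t = ν % 2 ^ t ↔ (2 * J + i) % 2 ^ t = ν' % 2 ^ t := by
    intro J
    have e : 2 * J + i' + (i + (2 ^ t - i')) = 2 * J + i + 2 ^ t := by omega
    have e' : ν + (i + (2 ^ t - i')) = ν' := by omega
    constructor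
    · intro h
      have h1 : (2 * J + i' + (i + (2 ^ t - i'))) ≡ ν + (i + (2 ^ t - i')) [MOD 2 ^ t] :=
        Nat.ModEq.add_right _ h
      rw [e, e'] at h1
      have h2 : (2 * J + i + 2 ^ t) % 2 ^ t = (2 * J + i) % 2 ^ t := by simp
      rw [← h2]
      exact h1
    · intro h
      have h2 : (2 * J + i + 2 ^ t) % 2 ^ t = (2 * J + i) % 2 ^ t := by simp
      have h1 : (2 * J + i' + (i + (2 ^ t - i'))) ≡ ν + (i + (2 ^ t - i')) [MOD 2 ^ t] := by
        rw [e, e']
        show (2 * J + i + 2 ^ t) % 2 ^ t = ν' % 2 ^ t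
        rw [h2, h]
      exact Nat.ModEq.add_right_cancel' _ h1
  by_cases hpar : i' % 2 = ν % 2
  · set p : ℕ → Prop := Cyc b s t ε (fun j => z j ν') with hp
    have hν'' : Pat 0 t (fun j => z j ν') ν' := fun j _ _ => rfl
    have hp2 : ∀ n, p n → n % 2 = i := by
      intro n hn
      have h1 := (pat_prefix_iff t _ ν' hν'' n).1 hn.2
      have h2 : n % 2 = ν' % 2 := by
        have := congrArg (· % 2) h1
        simpa [Nat.mod_mod_of_dvd _ hdvd] using this
      obtain ⟨c, hc⟩ := hdvd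
      omega
    have heq : (fun J => Pat s b ε (2 * J + i) ∧ Pat 0 t ε' (2 * J + i')) =
        (fun J => p (2 * J + i)) := by
      funext J
      apply propext
      rw [pat_prefix_iff t ε' ν hν', hiff J]
      constructor
      · rintro ⟨h1, h2⟩
        exact ⟨h1, (pat_prefix_iff t _ ν' hν'' _).2 h2⟩
      · rintro ⟨h1, h2⟩
        exact ⟨h1, (pat_prefix_iff t _ ν' hν'' _).1 h2⟩
    rw [heq]
    have hfun : cnt (fun J => p (2 * J + i)) = fun J => cnt p (2 * J) := by
      funext J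
      exact count_half p i hi hp2 J
    rw [hfun]
    exact (bal_cyc β b s t hb hs ht ε _).mul_arg 2
  · have heq : (fun J => Pat s b ε (2 * J + i) ∧ Pat 0 t ε' (2 * J + i')) =
        (fun _ => False) := by
      funext J
      apply propext
      rw [iff_false, pat_prefix_iff t ε' ν hν']
      rintro ⟨_, h2⟩
      have := congrArg (· % 2) h2
      simp only [Nat.mod_mod_of_dvd _ hdvd] at this
      omega
    rw [heq, cnt_false (fun _ => not_false)]
    exact Bal.zero.mono (by norm_num)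

theorem bal_A (e : ℕ → Bool) (s t : ℕ) (hst : s ≤ t) (ε : ℕ → Bool) :
    Bal 36 (cnt (fun q => Pat s t ε (yy e q))) := by
  have h1 : Bal (3 * 3) (fun J => cnt (fun q => Pat s t ε (yy e q)) (6 * J)) := by
    have : (fun J => cnt (fun q => Pat s t ε (yy e q)) (6 * J)) =
        fun J => 3 * cnt (Pat s t ε) (2 * J) := by
      funext J
      exact countA e (Pat s t ε) J
    rw [this]
    exact ((bal_pat s t hst ε).mul_arg 2).smul 3
  exact (Bal.coarse _ 6 (by norm_num) h1).mono (by norm_num)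

theorem bal_B (e : ℕ → Bool) (β b s t : ℕ) (hb : b = 2 ^ β) (hs : s ≤ b) (ht : t ≤ b)
    (ht1 : 1 ≤ t) (ε ε' : ℕ → Bool) :
    Bal 36 (cnt (fun q => Pat s b ε (yy e q) ∧ Pat 0 t ε' (yy e (q + 1)))) := by
  set R : ℕ → ℕ → Prop := fun c c' => Pat s b ε c ∧ Pat 0 t ε' c' with hR
  have h1 : Bal (3 + 2 * 3 + 3 + 3 + 3)
      (fun J => cnt (fun q => R (yy e q) (yy e (q + 1))) (6 * J)) := by
    have : (fun J => cnt (fun q => R (yy e q) (yy e (q + 1))) (6 * J)) = fun J =>
      cnt (fun J => R (2 * J) (2 * J)) J + 2 * cnt (fun J => R (2 * J) (2 * J + 1)) J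
      + cnt (fun J => R (2 * J + 1) (2 * J)) J
      + cnt (fun J => R (2 * J + 1) (2 * J + 1)) J
      + cnt (fun J => R (2 * J + 1) (2 * J + 2)) J := by
      funext J
      exact countB e R J
    rw [this]
    have T := fun i i' hi hi' => bal_type β b s t hb hs ht ht1 ε ε' i i' hi hi'
    have t00 := T 0 0 (by norm_num) (by norm_num)
    have t01 := T 0 1 (by norm_num) (by norm_num)
    have t10 := T 1 0 (by norm_num) (by norm_num)
    have t11 := T 1 1 (by norm_num) (by norm_num)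
    have t12 := T 1 2 (by norm_num) (by norm_num)
    exact (((t00.add (t01.smul 2)).add t10).add t11).add t12
  exact (Bal.coarse _ 6 (by norm_num) h1).mono (by norm_num)

end Pool.Agent.Helper2.BalWord
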