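import Mathlib
import Pool.Agent.Helper2.BalWordC

set_option autoImplicit false

namespace Pool.Agent.Helper2.BalWord

/-- Number of bits displayed by a block of level `i`. -/
def B : ℕ → ℕ
  | 0 => 4
  | i + 1 => 2 ^ (B i - 1)

/-- Length of the blocks of level `i`. -/
def L : ℕ → ℕ
  | 0 => 1
  | i + 1 => L i * (6 * B (i + 1))

theorem B_ge (i : ℕ) : 4 ≤ B i := by
  induction i with
  | zero => simp [B]
  | succ i ih =>
    rw [B]
    calc 4 ≤ 2 ^ 3 := by norm_num
      _ ≤ 2 ^ (B i - 1) := Nat.pow_le_pow_right (by norm_num) (by omega)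

theorem B_pow (i : ℕ) : ∃ β, B i = 2 ^ β := by
  cases i with
  | zero => exact ⟨2, rfl⟩
  | succ i => exact ⟨B i - 1, rfl⟩

theorem two_B_succ (i : ℕ) : 2 * B (i + 1) = 2 ^ B i := by
  have := B_ge i
  rw [B, ← pow_succ']
  congr 1
  omega

theorem L_pos (i : ℕ) : 0 < L i := by
  induction i with
  | zero => simp [L]
  | succ i ih =>
    have := B_ge (i + 1)
    rw [L]
    positivity

/-- The letter of level `i` at slot `d` in the block of level `i+1` with index `n`. -/
def v (n d : ℕ) : ℕ := 2 * (d / 6) + sg (z (d / 6) n) (d % 6)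

theorem v_zero (n : ℕ) : v n 0 = 0 := by simp [v, sg]

/-- The sequence of letters of level `i`. -/
def y (i q : ℕ) : ℕ :=
  if h : q = 0 then 0 else v (y (i + 1) (q / (6 * B (i + 1)))) (q % (6 * B (i + 1)))
termination_by q
decreasing_by
  have := B_ge (i + 1)
  exact Nat.div_lt_self (Nat.pos_of_ne_zero h) (by omega)

theorem y_eq (i q : ℕ) : y i q = v (y (i + 1) (q / (6 * B (i + 1)))) (q % (6 * B (i + 1))) := by
  by_cases h : q = 0
  · subst h
    rw [y]
    simp [v_zero]
  · rw [y]
    simp [h]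

theorem v_lt (i n d : ℕ) (hd : d < 6 * B (i + 1)) : v n d < 2 ^ B i := by
  rw [← two_B_succ]
  unfold v
  have := sg_le (z (d / 6) n) (d % 6)
  omega

theorem y_lt (i q : ℕ) : y i q < 2 ^ B i := by
  rw [y_eq]
  apply v_lt
  apply Nat.mod_lt
  have := B_ge (i + 1)
  omega

/-- The letter at position `k` of the block of level `i` with index `n`. -/
def W : ℕ → ℕ → ℕ → ℕ
  | 0, n, _ => n
  | i + 1, n, k => W i (v n (k / L i)) (k % L i)

/-- The infinite word, with letters in `{0, ..., 15}`. -/
def x (k : ℕ) : ℕ := y 0 k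

theorem x_block (i : ℕ) : ∀ k, x k = W i (y i (k / L i)) (k % L i) := by
  induction i with
  | zero => intro k; simp [L, W, x]
  | succ i ih =>
    intro k
    rw [ih k, y_eq i (k / L i), W]
    have e1 : k / L i / (6 * B (i + 1)) = k / L (i + 1) := by
      rw [Nat.div_div_eq_div_mul, L]
    have e2 : (k % L (i + 1)) / L i = (k / L i) % (6 * B (i + 1)) := by
      rw [L, Nat.mod_mul_right_div_self]
    have e3 : (k % L (i + 1)) % L i = k % L i := by
      rw [L]
      exact Nat.mod_mod_of_dvd _ (Dvd.intro _ rfl)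
    rw [e1, e2, e3]

theorem W_inj (i : ℕ) : ∀ n n' : ℕ, n < 2 ^ B i → n' < 2 ^ B i →
    (∀ k < L i, W i n k = W i n' k) → n = n' := by
  induction i with
  | zero =>
    intro n n' _ _ h
    exact h 0 (L_pos 0)
  | succ i ih =>
    intro n n' hn hn' h
    have hB := B_ge (i + 1)
    have hL := L_pos i
    have hv : ∀ d < 6 * B (i + 1), v n d = v n' d := by
      intro d hd
      apply ih _ _ (v_lt i n d hd) (v_lt i n' d hd)
      intro k hk
      have hlt : L i * d + k < L (i + 1) := by
        rw [L]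
        calc L i * d + k < L i * d + L i := by omega
          _ = L i * (d + 1) := by ring
          _ ≤ L i * (6 * B (i + 1)) := Nat.mul_le_mul_left _ hd
      have := h (L i * d + k) hlt
      rw [W, W, Nat.mul_add_div hL, Nat.div_eq_of_lt hk, Nat.mul_add_mod, Nat.mod_eq_of_lt hk,
        Nat.add_zero] at this
      exact this
    have hz : n % 2 ^ B (i + 1) = n' % 2 ^ B (i + 1) := by
      apply z_inj_low
      intro j hj
      have := hv (6 * j + 1) (by omega)
      unfold v at this
      have e1 : (6 * j + 1) / 6 = j := by omega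
      have e2 : (6 * j + 1) % 6 = 1 := by omega
      rw [e1, e2] at this
      revert this
      cases z j n <;> cases z j n' <;> simp [sg]
    rwa [Nat.mod_eq_of_lt hn, Nat.mod_eq_of_lt hn'] at hz

/-- The words of length `n` at positions `k` and `k'` agree. -/
def Agree (k k' n : ℕ) : Prop := ∀ t < n, x (k + t) = x (k' + t)

theorem Agree.symm {k k' n : ℕ} (h : Agree k k' n) : Agree k' k n := fun t ht => (h t ht).symm

theorem Agree.trans {k k' k'' n : ℕ} (h : Agree k k' n) (h' : Agree k' k'' n) : Agree k k'' n :=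
  fun t ht => (h t ht).trans (h' t ht)

theorem Agree.block {k k' n : ℕ} (h : Agree k k' n) (i Q Q' : ℕ) (h1 : k ≤ L i * Q)
    (h2 : L i * (Q + 1) ≤ k + n) (h3 : L i * Q' + k = L i * Q + k') : y i Q = y i Q' := by
  apply W_inj i _ _ (y_lt i Q) (y_lt i Q')
  intro s hs
  have hL := L_pos i
  have e1 : x (L i * Q + s) = W i (y i Q) s := by
    rw [x_block i, Nat.mul_add_div hL, Nat.div_eq_of_lt hs, Nat.mul_add_mod, Nat.mod_eq_of_lt hs,
      Nat.add_zero]
  have e2 : x (L i * Q' + s) = W i (y i Q') s := by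
    rw [x_block i, Nat.mul_add_div hL, Nat.div_eq_of_lt hs, Nat.mul_add_mod, Nat.mod_eq_of_lt hs,
      Nat.add_zero]
  rw [← e1, ← e2]
  have e3 : L i * (Q + 1) = L i * Q + L i := by ring
  have := h (L i * Q + s - k) (by omega)
  have e4 : k + (L i * Q + s - k) = L i * Q + s := by omega
  have e5 : k' + (L i * Q + s - k) = L i * Q' + s := by omega
  rwa [e4, e5] at this

theorem group_eq (i Q Q' : ℕ) (h : y i Q = y i Q') :
    Q / 6 % B (i + 1) = Q' / 6 % B (i + 1) := by
  rw [y_eq i Q, y_eq i Q'] at h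
  unfold v at h
  have h1 := sg_le (z (Q % (6 * B (i + 1)) / 6) (y (i + 1) (Q / (6 * B (i + 1)))))
    (Q % (6 * B (i + 1)) % 6)
  have h2 := sg_le (z (Q' % (6 * B (i + 1)) / 6) (y (i + 1) (Q' / (6 * B (i + 1)))))
    (Q' % (6 * B (i + 1)) % 6)
  have h3 : Q % (6 * B (i + 1)) / 6 = Q' % (6 * B (i + 1)) / 6 := by omega
  rwa [Nat.mod_mul_right_div_self, Nat.mod_mul_right_div_self] at h3

/-- Recognizability: a factor of length at least `L i` occurs only at positions in one residue
class modulo `L i`. -/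
theorem recog (i : ℕ) : ∀ k k' n : ℕ, L i ≤ n → Agree k k' n → k % L i = k' % L i := by
  induction i with
  | zero => intro k k' n _ _; simp [L, Nat.mod_one]
  | succ i ih =>
    intro k k' n hn h
    have hB := B_ge (i + 1)
    have hL := L_pos i
    have hLL : L (i + 1) = L i * (6 * B (i + 1)) := rfl
    have hle : L i ≤ L (i + 1) := by
      rw [hLL]; exact Nat.le_mul_of_pos_right _ (by omega)
    have h0 := ih k k' n (le_trans hle hn) h
    set q := k / L i with hq
    set q' := k' / L i with hq'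
    have hk := Nat.div_add_mod k (L i)
    have hk' := Nat.div_add_mod k' (L i)
    have hlt := Nat.mod_lt k hL
    rw [← hq] at hk
    rw [← hq'] at hk'
    have hy : ∀ t, 1 ≤ t → t < 6 * B (i + 1) → y i (q + t) = y i (q' + t) := by
      intro t ht1 ht2
      apply h.block i (q + t) (q' + t)
      · have : L i * (q + t) = L i * q + L i * t := by ring
        have h5 : L i * 1 ≤ L i * t := Nat.mul_le_mul_left _ ht1
        omega
      · have e1 : L i * (q + t + 1) = L i * q + L i * (t + 1) := by ring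
        have e2 : L i * (t + 1) ≤ L i * (6 * B (i + 1)) := Nat.mul_le_mul_left _ ht2
        omega
      · have e1 : L i * (q + t) = L i * q + L i * t := by ring
        have e2 : L i * (q' + t) = L i * q' + L i * t := by ring
        omega
    have hg : ∀ t, 1 ≤ t → t < 6 * B (i + 1) →
        (q + t) / 6 % B (i + 1) = (q' + t) / 6 % B (i + 1) :=
      fun t h1 h2 => group_eq i _ _ (hy t h1 h2)
    -- a group boundary
    obtain ⟨t0, ht1, ht2, ht3⟩ : ∃ t0, 1 ≤ t0 ∧ t0 ≤ 6 ∧ (q + t0) % 6 = 5 := by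
      refine ⟨6 - q % 6 + (if q % 6 = 5 then 5 else 0) - (if q % 6 = 5 then 0 else 1), ?_, ?_, ?_⟩
      all_goals split_ifs <;> omega
    have g1 := hg t0 ht1 (by omega)
    have g2 := hg (t0 + 1) (by omega) (by omega)
    have hne : ∀ a : ℕ, a % B (i + 1) ≠ (a + 1) % B (i + 1) := by
      intro a ha
      have h1 : a + 1 ≡ a + 0 [MOD B (i + 1)] := ha.symm
      have h2 : 1 ≡ 0 [MOD B (i + 1)] := Nat.ModEq.add_left_cancel' a h1
      have h3 := (Nat.modEq_zero_iff_dvd.mp h2)
      have h4 := Nat.le_of_dvd (by norm_num) h3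
      omega
    have hq6 : (q' + t0) % 6 = 5 := by
      by_contra hcon
      have e1 : (q' + (t0 + 1)) / 6 = (q' + t0) / 6 := by omega
      have e2 : (q + (t0 + 1)) / 6 = (q + t0) / 6 + 1 := by omega
      rw [e1, e2] at g2
      exact hne _ (g1.trans g2.symm)
    -- conclude
    have hmod : q % (6 * B (i + 1)) = q' % (6 * B (i + 1)) := by
      have h1 : 6 * ((q + t0) / 6) ≡ 6 * ((q' + t0) / 6) [MOD 6 * B (i + 1)] :=
        Nat.ModEq.mul_left' 6 g1
      have e1 : q + (t0 + 1) = 6 * ((q + t0) / 6) + 6 := by omega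
      have e2 : q' + (t0 + 1) = 6 * ((q' + t0) / 6) + 6 := by omega
      have h2 : q + (t0 + 1) ≡ q' + (t0 + 1) [MOD 6 * B (i + 1)] := by
        rw [e1, e2]
        exact Nat.ModEq.add_right 6 h1
      exact Nat.ModEq.add_right_cancel' _ h2
    have e1 : k % L (i + 1) = L i * (q % (6 * B (i + 1))) + k % L i := by
      rw [hLL, Nat.mod_mul, Nat.add_comm, hq]
    have e2 : k' % L (i + 1) = L i * (q' % (6 * B (i + 1))) + k' % L i := by
      rw [hLL, Nat.mod_mul, Nat.add_comm, hq']
    rw [e1, e2, hmod, h0]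

end Pool.Agent.Helper2.BalWord
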