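import Mathlib
import Pool.Agent.Helper2.BalWordD

set_option autoImplicit false

namespace Pool.Agent.Helper2.BalWord

/-- The `j`-th bit displayed by two consecutive blocks of level `i` starting with the `q`-th. -/
def bit (i j q : ℕ) : Bool := if j < B i then z j (y i q) else z (j - B i) (y i (q + 1))

theorem y_yy (i q : ℕ) : y i q % 2 ^ B i =
    yy (fun J => z (J % B (i + 1)) (y (i + 1) (J / B (i + 1)))) q % 2 ^ B i := by
  rw [y_eq, ← two_B_succ]
  unfold v yy
  have e1 : q % (6 * B (i + 1)) / 6 = q / 6 % B (i + 1) := Nat.mod_mul_right_div_self _ _ _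
  have e2 : q % (6 * B (i + 1)) % 6 = q % 6 := Nat.mod_mod_of_dvd _ (Dvd.intro _ rfl)
  have e3 : q / (6 * B (i + 1)) = q / 6 / B (i + 1) := by rw [Nat.div_div_eq_div_mul]
  rw [e1, e2, e3]
  dsimp only
  set a := q / 6
  set r := sg (z (a % B (i + 1)) (y (i + 1) (a / B (i + 1)))) (q % 6)
  have h := Nat.div_add_mod a (B (i + 1))
  have e : 2 * a + r = 2 * (a % B (i + 1)) + r + 2 * B (i + 1) * (a / B (i + 1)) := by
    calc 2 * a + r = 2 * (B (i + 1) * (a / B (i + 1)) + a % B (i + 1)) + r := by rw [h]
      _ = _ := by ring
  rw [e, Nat.add_mul_mod_self_left]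

theorem bal_P (i s u : ℕ) (hs : s ≤ B i) (hu : u ≤ 2 * B i) (ε : ℕ → Bool) :
    Bal 36 (cnt (fun q => ∀ j, s ≤ j → j < u → bit i j q = ε j)) := by
  set e : ℕ → Bool := fun J => z (J % B (i + 1)) (y (i + 1) (J / B (i + 1))) with he
  have hz : ∀ j q, j < B i → z j (y i q) = z j (yy e q) := fun j q hj => z_mod' hj (y_yy i q)
  by_cases hub : u ≤ B i
  · have : cnt (fun q => ∀ j, s ≤ j → j < u → bit i j q = ε j) =
        cnt (fun q => Pat (min s u) u ε (yy e q)) := by
      apply cnt_congr
      intro q
      constructor
      · intro h j h1 h2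
        have h3 := h j (by omega) h2
        unfold bit at h3
        rw [if_pos (by omega), hz j q (by omega)] at h3
        exact h3
      · intro h j h1 h2
        have h3 := h j (by omega) h2
        unfold bit
        rw [if_pos (by omega), hz j q (by omega)]
        exact h3
    rw [this]
    exact bal_A e (min s u) u (min_le_right _ _) ε
  · obtain ⟨β, hβ⟩ := B_pow i
    have : cnt (fun q => ∀ j, s ≤ j → j < u → bit i j q = ε j) =
        cnt (fun q => Pat s (B i) ε (yy e q) ∧
          Pat 0 (u - B i) (fun j => ε (j + B i)) (yy e (q + 1))) := by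
      apply cnt_congr
      intro q
      constructor
      · intro h
        refine ⟨?_, ?_⟩
        · intro j h1 h2
          have h3 := h j h1 (by omega)
          unfold bit at h3
          rw [if_pos h2, hz j q h2] at h3
          exact h3
        · intro j _ h2
          have h3 := h (j + B i) (by omega) (by omega)
          unfold bit at h3
          rw [if_neg (by omega), Nat.add_sub_cancel, hz j (q + 1) (by omega)] at h3
          exact h3
      · rintro ⟨h1, h2⟩ j h3 h4
        unfold bit
        by_cases hj : j < B i
        · rw [if_pos hj, hz j q hj]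
          exact h1 j h3 hj
        · rw [if_neg hj, hz (j - B i) (q + 1) (by omega)]
          have h5 := h2 (j - B i) (Nat.zero_le _) (by omega)
          have e5 : j - B i + B i = j := by omega
          simp only [e5] at h5
          exact h5
    rw [this]
    exact bal_B e β (B i) s (u - B i) hβ hs (by omega) (by omega) ε _

theorem x_pos (i q j p : ℕ) (hj : j < 2 * B (i + 1)) (hp : p < L i * 6) :
    x (L (i + 1) * q + (L i * 6 * j + p)) =
      W i (2 * (j % B (i + 1)) + sg (bit (i + 1) j q) (p / L i)) (p % L i) := by
  have hL := L_pos i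
  have hB := B_ge (i + 1)
  set b := B (i + 1) with hb
  have hd : p / L i < 6 := Nat.div_lt_of_lt_mul hp
  obtain ⟨d, hdd⟩ : ∃ d, d = p / L i := ⟨_, rfl⟩
  rw [← hdd] at hd ⊢
  have e0 : L (i + 1) * q + (L i * 6 * j + p) = L i * (6 * b * q + 6 * j) + p := by
    rw [L]; ring
  rw [x_block i, e0, Nat.mul_add_div hL, Nat.mul_add_mod, ← hdd, y_eq, ← hb]
  congr 1
  by_cases hjb : j < b
  · have e1 : 6 * b * q + 6 * j + d = 6 * b * q + (6 * j + d) := by ring
    have e2 : 6 * j + d < 6 * b := by omega
    rw [e1, Nat.mul_add_div (by omega), Nat.div_eq_of_lt e2, Nat.mul_add_mod,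
      Nat.mod_eq_of_lt e2, Nat.add_zero]
    unfold v bit
    have e3 : (6 * j + d) / 6 = j := by omega
    have e4 : (6 * j + d) % 6 = d := by omega
    rw [e3, e4, if_pos hjb, Nat.mod_eq_of_lt hjb]
    simp only [Nat.add_zero]
  · have e1 : 6 * b * q + 6 * j + d = 6 * b * (q + 1) + (6 * (j - b) + d) := by
      have : 6 * b * (q + 1) = 6 * b * q + 6 * b := by ring
      omega
    have e2 : 6 * (j - b) + d < 6 * b := by omega
    rw [e1, Nat.mul_add_div (by omega), Nat.div_eq_of_lt e2, Nat.mul_add_mod,
      Nat.mod_eq_of_lt e2, Nat.add_zero]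
    unfold v bit
    have e3 : (6 * (j - b) + d) / 6 = j - b := by omega
    have e4 : (6 * (j - b) + d) % 6 = d := by omega
    have e5 : j % b = j - b := by
      rw [Nat.mod_eq_sub_mod (by omega), Nat.mod_eq_of_lt (by omega)]
    rw [e3, e4, if_neg hjb, e5, Nat.add_zero]

/-- Reading a factor inside two consecutive blocks means reading an interval of bits. -/
theorem agree_bits (i r n : ℕ) (hr : r < L i) (hn : r + n ≤ 2 * L i) (q0 : ℕ) :
    ∃ s u, s ≤ B i ∧ u ≤ 2 * B i ∧ ∀ q, (Agree (L i * q + r) (L i * q0 + r) n ↔
      ∀ j, s ≤ j → j < u → bit i j q = bit i j q0) := by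
  cases i with
  | zero =>
    have hr0 : r = 0 := by simp [L] at hr; exact hr
    subst hr0
    have hn2 : n ≤ 2 := by simpa [L] using hn
    refine ⟨0, 4 * n, by simp, by simp [B]; omega, ?_⟩
    intro q
    have hx : Agree (L 0 * q + 0) (L 0 * q0 + 0) n ↔ ∀ t < n, y 0 (q + t) = y 0 (q0 + t) := by
      simp [Agree, L, x]
    rw [hx]
    have hy : ∀ a a', y 0 a = y 0 a' ↔ ∀ j < 4, z j (y 0 a) = z j (y 0 a') := by
      intro a a'
      constructor
      · intro h j _; rw [h]
      · intro h
        have h1 : y 0 a % 2 ^ 4 = y 0 a' % 2 ^ 4 := z_inj_low 4 _ _ h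
        have h2 : y 0 a < 2 ^ 4 := y_lt 0 a
        have h3 : y 0 a' < 2 ^ 4 := y_lt 0 a'
        rwa [Nat.mod_eq_of_lt h2, Nat.mod_eq_of_lt h3] at h1
    constructor
    · intro h j _ hj
      unfold bit
      have hB0 : B 0 = 4 := rfl
      rw [hB0]
      by_cases hj4 : j < 4
      · rw [if_pos hj4, if_pos hj4]
        have := h 0 (by omega)
        simp only [Nat.add_zero] at this
        rw [this]
      · rw [if_neg hj4, if_neg hj4, h 1 (by omega)]
    · intro h t ht
      rw [hy]
      intro j hj
      have hB0 : B 0 = 4 := rfl
      have ht' : t = 0 ∨ t = 1 := by omega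
      rcases ht' with rfl | rfl
      · have h1 := h j (Nat.zero_le _) (by omega)
        unfold bit at h1
        rw [hB0, if_pos hj, if_pos hj] at h1
        simpa using h1
      · have h1 := h (j + 4) (Nat.zero_le _) (by omega)
        unfold bit at h1
        rw [hB0, if_neg (by omega), if_neg (by omega), Nat.add_sub_cancel] at h1
        exact h1
  | succ i =>
    have hL := L_pos i
    have hB := B_ge (i + 1)
    set b := B (i + 1) with hb
    have hLL : L (i + 1) = L i * 6 * b := by rw [L]; ring
    by_cases hn0 : n = 0
    · subst hn0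
      refine ⟨0, 0, Nat.zero_le _, Nat.zero_le _, ?_⟩
      intro q
      constructor
      · intro _ j _ h2; omega
      · intro _ t ht; omega
    set ℓ := L i * 6 with hℓ
    have hℓ0 : 0 < ℓ := by omega
    set good : ℕ → Bool → Prop := fun j e => ∀ p < ℓ, r ≤ ℓ * j + p → ℓ * j + p < r + n →
      W i (2 * (j % b) + sg e (p / L i)) (p % L i) =
        W i (2 * (j % b) + sg (bit (i + 1) j q0) (p / L i)) (p % L i) with hgood
    have hag : ∀ q, Agree (L (i + 1) * q + r) (L (i + 1) * q0 + r) n ↔
        ∀ j < 2 * b, good j (bit (i + 1) j q) := by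
      intro q
      constructor
      · intro h j hj p hp h1 h2
        have h3 := h (ℓ * j + p - r) (by omega)
        have e1 : L (i + 1) * q + r + (ℓ * j + p - r) = L (i + 1) * q + (ℓ * j + p) := by omega
        have e2 : L (i + 1) * q0 + r + (ℓ * j + p - r) = L (i + 1) * q0 + (ℓ * j + p) := by omega
        rw [e1, e2, hℓ, x_pos i q j p hj hp, x_pos i q0 j p hj hp] at h3
        exact h3
      · intro h t ht
        have hd := Nat.div_add_mod (r + t) ℓ
        have hm := Nat.mod_lt (r + t) hℓ0
        set j := (r + t) / ℓ with hj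
        set p := (r + t) % ℓ with hp
        have hj2 : j < 2 * b := by
          rw [hj]
          apply Nat.div_lt_of_lt_mul
          have : ℓ * (2 * b) = 2 * L (i + 1) := by rw [hLL]; ring
          omega
        have h3 := h j hj2 p hm (by omega) (by omega)
        have e1 : L (i + 1) * q + r + t = L (i + 1) * q + (ℓ * j + p) := by omega
        have e2 : L (i + 1) * q0 + r + t = L (i + 1) * q0 + (ℓ * j + p) := by omega
        rw [e1, e2, hℓ, x_pos i q j p hj2 hm, x_pos i q0 j p hj2 hm]
        exact h3
    set free : ℕ → Prop := fun j => good j (!bit (i + 1) j q0) with hfree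
    have hself : ∀ j, good j (bit (i + 1) j q0) := fun j p _ _ _ => rfl
    have hgf : ∀ j e, good j e ↔ (¬ free j → e = bit (i + 1) j q0) := by
      intro j e
      by_cases he : e = bit (i + 1) j q0
      · subst he
        simp [hself j]
      · have he' : e = !bit (i + 1) j q0 := by
          revert he
          cases e <;> cases bit (i + 1) j q0 <;> simp
        constructor
        · intro h hnf
          rw [he'] at h
          exact absurd h hnf
        · intro h
          by_contra hcon
          rw [he'] at hcon
          exact he (h hcon)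
    have hdr := Nat.div_add_mod r ℓ
    have hmr := Nat.mod_lt r hℓ0
    have hdr1 := Nat.div_add_mod (r + n - 1) ℓ
    have hmr1 := Nat.mod_lt (r + n - 1) hℓ0
    set j0 := r / ℓ with hj0
    set j1 := (r + n - 1) / ℓ with hj1
    have hlow : ∀ j, j < j0 → free j := by
      intro j hj p hp h1 h2
      exfalso
      have : ℓ * (j + 1) ≤ ℓ * j0 := Nat.mul_le_mul_left _ hj
      have e : ℓ * (j + 1) = ℓ * j + ℓ := by ring
      omega
    have hhigh : ∀ j, j1 < j → free j := by
      intro j hj p hp h1 h2
      exfalso
      have : ℓ * (j1 + 1) ≤ ℓ * j := Nat.mul_le_mul_left _ hj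
      have e : ℓ * (j1 + 1) = ℓ * j1 + ℓ := by ring
      omega
    have hmid : ∀ j, j0 < j → j < j1 → ¬ free j := by
      intro j hj hj' hf
      have h1 : ℓ * (j0 + 1) ≤ ℓ * j := Nat.mul_le_mul_left _ hj
      have h2 : ℓ * (j + 1) ≤ ℓ * j1 := Nat.mul_le_mul_left _ hj'
      have e1 : ℓ * (j0 + 1) = ℓ * j0 + ℓ := by ring
      have e2 : ℓ * (j + 1) = ℓ * j + ℓ := by ring
      have hmb : j % b < b := Nat.mod_lt _ (by omega)
      have h2b : 2 * b = 2 ^ B i := two_B_succ i
      have key : 2 * (j % b) + sg (!bit (i + 1) j q0) 1 = 2 * (j % b) + sg (bit (i + 1) j q0) 1 := by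
        apply W_inj i
        · have := sg_le (!bit (i + 1) j q0) 1; omega
        · have := sg_le (bit (i + 1) j q0) 1; omega
        intro k hk
        have h3 := hf (L i + k) (by omega) (by omega) (by omega)
        have e3 : (L i + k) / L i = 1 := by
          rw [Nat.add_div_left _ hL, Nat.div_eq_of_lt hk]
        have e4 : (L i + k) % L i = k := by
          rw [Nat.add_mod_left, Nat.mod_eq_of_lt hk]
        rw [e3, e4] at h3
        exact h3
      revert key
      cases bit (i + 1) j q0 <;> simp [sg]
    have hj0b : j0 < b := by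
      rw [hj0]
      apply Nat.div_lt_of_lt_mul
      rw [← hLL]
      exact hr
    have hj1b : j1 < 2 * b := by
      rw [hj1]
      apply Nat.div_lt_of_lt_mul
      have : ℓ * (2 * b) = 2 * L (i + 1) := by rw [hLL]; ring
      omega
    classical
    refine ⟨if free j0 then j0 + 1 else j0, if free j1 then j1 else j1 + 1, ?_, ?_, ?_⟩
    · split_ifs <;> omega
    · split_ifs <;> omega
    · intro q
      rw [hag q]
      constructor
      · intro h j hs hu
        have hj2 : j < 2 * b := by
          revert hu
          split_ifs <;> omega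
        apply (hgf j _).1 (h j hj2)
        rcases Nat.lt_trichotomy j j0 with h1 | h1 | h1
        · exfalso
          revert hs
          split_ifs <;> omega
        · intro hf
          subst h1
          rw [if_pos hf] at hs
          omega
        · rcases Nat.lt_trichotomy j j1 with h2 | h2 | h2
          · exact hmid j h1 h2
          · intro hf
            rw [h2] at hf
            rw [if_pos hf] at hu
            omega
          · exfalso
            revert hu
            split_ifs <;> omega
      · intro h j hj
        rw [hgf]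
        intro hnf
        apply h j
        · split_ifs with hf
          · by_contra hcon
            rcases Nat.lt_or_ge j j0 with h1 | h1
            · exact hnf (hlow j h1)
            · have : j = j0 := by omega
              rw [this] at hnf
              exact hnf hf
          · by_contra hcon
            exact hnf (hlow j (by omega))
        · split_ifs with hf
          · by_contra hcon
            rcases Nat.lt_or_ge j1 j with h1 | h1
            · exact hnf (hhigh j h1)
            · have : j = j1 := by omega
              rw [this] at hnf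
              exact hnf hf
          · by_contra hcon
            exact hnf (hhigh j (by omega))

end Pool.Agent.Helper2.BalWord
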