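import Mathlib
import Pool.Agent.Helper2.BalWordE

set_option autoImplicit false

namespace Pool.Agent.Helper2.BalWord

theorem bal_H (i k0 n : ℕ) (h : k0 % L i + n ≤ 2 * L i) :
    Bal 38 (cnt (fun k => k % L i = k0 % L i ∧ Agree k k0 n)) := by
  have hL := L_pos i
  obtain ⟨s, u, hs, hu, hiff⟩ := agree_bits i (k0 % L i) n (Nat.mod_lt _ hL) h (k0 / L i)
  have hb := bal_P i s u hs hu (fun j => bit i j (k0 / L i))
  have hc := Bal.class _ (L i) (k0 % L i) (Nat.mod_lt _ hL) hb
  have heq : cnt (fun k => k % L i = k0 % L i ∧ Agree k k0 n) =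
      cnt (fun k => k % L i = k0 % L i ∧
        ∀ j, s ≤ j → j < u → bit i j (k / L i) = bit i j (k0 / L i)) := by
    apply cnt_congr
    intro k
    constructor
    · rintro ⟨h1, h2⟩
      refine ⟨h1, ?_⟩
      rw [← hiff]
      have e1 : L i * (k / L i) + k0 % L i = k := by rw [← h1]; exact Nat.div_add_mod k _
      have e2 : L i * (k0 / L i) + k0 % L i = k0 := Nat.div_add_mod k0 _
      rw [e1, e2]
      exact h2
    · rintro ⟨h1, h2⟩
      refine ⟨h1, ?_⟩
      rw [← hiff] at h2
      have e1 : L i * (k / L i) + k0 % L i = k := by rw [← h1]; exact Nat.div_add_mod k _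
      have e2 : L i * (k0 / L i) + k0 % L i = k0 := Nat.div_add_mod k0 _
      rw [e1, e2] at h2
      exact h2
  rw [heq]
  exact hc

theorem cnt_split (p : ℕ → Prop) (h : ℕ → ℕ) (m : ℕ) (hm : ∀ k, h k < m) (n : ℕ) :
    cnt p n = ∑ s ∈ Finset.range m, cnt (fun k => p k ∧ h k = s) n := by
  classical
  induction n with
  | zero => simp
  | succ n ih =>
    rw [cnt_succ, ih]
    simp only [cnt_succ]
    rw [Finset.sum_add_distrib]
    congr 1
    by_cases hp : p n
    · simp [hp, hm n]
    · simp [hp]

theorem L_gt (n : ℕ) : n < L n := by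
  induction n with
  | zero => exact L_pos 0
  | succ n ih =>
    have hB := B_ge (n + 1)
    rw [L]
    calc n + 1 < 2 * (n + 1) := by omega
      _ ≤ 2 * L n := by omega
      _ ≤ (6 * B (n + 1)) * L n := Nat.mul_le_mul_right _ (by omega)
      _ = L n * (6 * B (n + 1)) := by ring

theorem exists_level (n : ℕ) (hn : 1 ≤ n) : ∃ i, L i ≤ n ∧ n < L (i + 1) := by
  classical
  have hex : ∃ m, n < L m := ⟨n, L_gt n⟩
  have h1 := Nat.find_spec hex
  have h2 : Nat.find hex ≠ 0 := by
    intro h0
    rw [h0] at h1
    simp [L] at h1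
    omega
  refine ⟨Nat.find hex - 1, ?_, ?_⟩
  · have := Nat.find_min hex (m := Nat.find hex - 1) (by omega)
    omega
  · have e : Nat.find hex - 1 + 1 = Nat.find hex := by omega
    rw [e]
    exact h1

theorem bal_main (k0 n : ℕ) : Bal 228 (cnt (fun k => Agree k k0 n)) := by
  classical
  rcases Nat.eq_zero_or_pos n with hn | hn
  · subst hn
    have h := bal_H 0 k0 0 (by simp [L, Nat.mod_one])
    have e : cnt (fun k => Agree k k0 0) = cnt (fun k => k % L 0 = k0 % L 0 ∧ Agree k k0 0) := by
      apply cnt_congr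
      intro k
      simp [L, Nat.mod_one]
    rw [e]
    exact h.mono (by norm_num)
  obtain ⟨i, hi1, hi2⟩ := exists_level n hn
  have hL := L_pos i
  have hB := B_ge (i + 1)
  have hLL : L (i + 1) = L i * (6 * B (i + 1)) := rfl
  by_cases hA : k0 % L i + n ≤ 2 * L i
  · have h := bal_H i k0 n hA
    have e : cnt (fun k => Agree k k0 n) = cnt (fun k => k % L i = k0 % L i ∧ Agree k k0 n) := by
      apply cnt_congr
      intro k
      exact ⟨fun h => ⟨recog i k k0 n hi1 h, h⟩, fun h => h.2⟩
    rw [e]
    exact h.mono (by norm_num)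
  · have hsplit : cnt (fun k => Agree k k0 n) = fun t =>
        ∑ s ∈ Finset.range 6, cnt (fun k => Agree k k0 n ∧ (k / L i + 1) % 6 = s) t := by
      funext t
      exact cnt_split _ (fun k => (k / L i + 1) % 6) 6 (fun k => Nat.mod_lt _ (by norm_num)) t
    rw [hsplit]
    have hmain : Bal ((Finset.range 6).card * 38) (fun t =>
        ∑ s ∈ Finset.range 6, cnt (fun k => Agree k k0 n ∧ (k / L i + 1) % 6 = s) t) := by
      apply Bal.sum
      intro s _
      by_cases hex : ∃ ks, Agree ks k0 n ∧ (ks / L i + 1) % 6 = s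
      · obtain ⟨ks, hks1, hks2⟩ := hex
        have hbal := bal_H (i + 1) ks n (by
          have := Nat.mod_lt ks (L_pos (i + 1))
          omega)
        have e : cnt (fun k => Agree k k0 n ∧ (k / L i + 1) % 6 = s) =
            cnt (fun k => k % L (i + 1) = ks % L (i + 1) ∧ Agree k ks n) := by
          apply cnt_congr
          intro k
          constructor
          · rintro ⟨h1, h2⟩
            have hag : Agree k ks n := h1.trans hks1.symm
            refine ⟨?_, hag⟩
            have hm := recog i k ks n hi1 hag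
            have hm0 := recog i k k0 n hi1 h1
            have hk := Nat.div_add_mod k (L i)
            have hk' := Nat.div_add_mod ks (L i)
            have hlt := Nat.mod_lt k hL
            have hy : y i (k / L i + 1) = y i (ks / L i + 1) := by
              apply hag.block i
              · have : L i * (k / L i + 1) = L i * (k / L i) + L i := by ring
                omega
              · have : L i * (k / L i + 1 + 1) = L i * (k / L i) + 2 * L i := by ring
                omega
              · have e1 : L i * (k / L i + 1) = L i * (k / L i) + L i := by ring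
                have e2 : L i * (ks / L i + 1) = L i * (ks / L i) + L i := by ring
                omega
            have hg := group_eq i _ _ hy
            have h6 : (k / L i + 1) % 6 = (ks / L i + 1) % 6 := by omega
            have hmod : (k / L i) % (6 * B (i + 1)) = (ks / L i) % (6 * B (i + 1)) := by
              have a1 : (k / L i + 1) % (6 * B (i + 1)) = (ks / L i + 1) % (6 * B (i + 1)) := by
                rw [Nat.mod_mul, Nat.mod_mul, h6, hg]
              exact Nat.ModEq.add_right_cancel' 1 a1
            rw [hLL, @Nat.mod_mul (L i) (6 * B (i + 1)) k, @Nat.mod_mul (L i) (6 * B (i + 1)) ks,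
              hm, hmod]
          · rintro ⟨h1, h2⟩
            refine ⟨h2.trans hks1, ?_⟩
            have a1 : (k / L i) % (6 * B (i + 1)) = (ks / L i) % (6 * B (i + 1)) := by
              rw [hLL] at h1
              rw [← Nat.mod_mul_right_div_self, ← Nat.mod_mul_right_div_self, h1]
            have a2 : (k / L i) % 6 = (ks / L i) % 6 := by
              have := congrArg (· % 6) a1
              simpa [Nat.mod_mod_of_dvd _ (Dvd.intro _ rfl : 6 ∣ 6 * B (i + 1))] using this
            rw [← hks2]
            omega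
        rw [e]
        exact hbal
      · have hf : cnt (fun k => Agree k k0 n ∧ (k / L i + 1) % 6 = s) = fun _ => 0 := by
          apply cnt_false
          intro k hk
          exact hex ⟨k, hk⟩
        rw [hf]
        exact Bal.zero.mono (by norm_num)
    exact hmain.mono (by simp)

theorem y_surj (i c : ℕ) (hc : c < 2 ^ B i) : ∃ q, y i q = c := by
  rw [← two_B_succ] at hc
  have key : ∀ d, d < 6 * B (i + 1) → y i d = v (y (i + 1) 0) d := by
    intro d hd
    rw [y_eq, Nat.div_eq_of_lt hd, Nat.mod_eq_of_lt hd]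
  rcases Nat.even_or_odd' c with ⟨j, rfl | rfl⟩
  · refine ⟨6 * j, ?_⟩
    rw [key _ (by omega)]
    unfold v
    have e2 : 6 * j % 6 = 0 := by omega
    have e1 : 6 * j / 6 = j := by omega
    rw [e1, e2]
    simp [sg]
  · refine ⟨6 * j + 5, ?_⟩
    rw [key _ (by omega)]
    unfold v
    have e2 : (6 * j + 5) % 6 = 5 := by omega
    have e1 : (6 * j + 5) / 6 = j := by omega
    rw [e1, e2]
    simp [sg]

theorem pow_ge (b : ℕ) (hb : 8 ≤ b) : 2 * b + 3 ≤ 2 ^ (b - 1) := by
  induction b, hb using Nat.le_induction with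
  | base => norm_num
  | succ b hb ih =>
    have e : b + 1 - 1 = (b - 1) + 1 := by omega
    rw [e, pow_succ]
    omega

theorem growth (i : ℕ) : 8 ≤ B (i + 1) ∧ (i + 2) * L (i + 1) ≤ 2 ^ B (i + 1) := by
  induction i with
  | zero => simp [B, L]
  | succ i ih =>
    obtain ⟨h1, h2⟩ := ih
    have h3 := pow_ge _ h1
    have hB : B (i + 1 + 1) = 2 ^ (B (i + 1) - 1) := rfl
    refine ⟨by omega, ?_⟩
    have hLL : L (i + 1 + 1) = L (i + 1) * (3 * 2 ^ B (i + 1)) := by
      rw [L, ← two_B_succ]; ring
    calc (i + 1 + 2) * L (i + 1 + 1) = (i + 3) * (L (i + 1) * (3 * 2 ^ B (i + 1))) := by rw [hLL]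
      _ ≤ (2 * (i + 2)) * (L (i + 1) * (3 * 2 ^ B (i + 1))) := Nat.mul_le_mul_right _ (by omega)
      _ = ((i + 2) * L (i + 1)) * (6 * 2 ^ B (i + 1)) := by ring
      _ ≤ 2 ^ B (i + 1) * (6 * 2 ^ B (i + 1)) := Nat.mul_le_mul_right _ h2
      _ ≤ 2 ^ B (i + 1) * (8 * 2 ^ B (i + 1)) := by gcongr; norm_num
      _ = 2 ^ (2 * B (i + 1) + 3) := by
        rw [pow_add, two_mul, pow_add]; ring
      _ ≤ 2 ^ B (i + 1 + 1) := Nat.pow_le_pow_right (by norm_num) (by omega)

end Pool.Agent.Helper2.BalWord
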