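import Mathlib

set_option autoImplicit false

namespace Pool.Agent.Exp3

open Finset

variable {α : Type*} [Fintype α] [DecidableEq α]

/-- codegree neighbourhood of the pair `x,y` -/
def cod (H : Finset (Finset α)) (x y : α) : Finset α :=
  Finset.univ.filter (fun z => ({x, y, z} : Finset α) ∈ H)

theorem mem_cod {H : Finset (Finset α)} {x y z : α} :
    z ∈ cod H x y ↔ ({x, y, z} : Finset α) ∈ H := by
  simp [cod]

theorem insert_rot1 (x y z : α) : ({x, y, z} : Finset α) = {y, x, z} := by
  ext w; simp only [mem_insert, mem_singleton]; tauto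

theorem insert_rot2 (x y z : α) : ({x, y, z} : Finset α) = {x, z, y} := by
  ext w; simp only [mem_insert, mem_singleton]; tauto

theorem mem_cod_swap {H : Finset (Finset α)} {x y z : α} :
    z ∈ cod H x y ↔ z ∈ cod H y x := by
  rw [mem_cod, mem_cod, insert_rot1]

theorem mem_cod_rot {H : Finset (Finset α)} {x y z : α} :
    z ∈ cod H x y ↔ y ∈ cod H x z := by
  rw [mem_cod, mem_cod, insert_rot2]

theorem ne_of_mem_cod {H : Finset (Finset α)} (hH : ∀ e ∈ H, e.card = 3) {x y z : α}
    (h : z ∈ cod H x y) : x ≠ y ∧ x ≠ z ∧ y ≠ z := by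
  rw [mem_cod] at h
  have h3 := hH _ h
  refine ⟨?_, ?_, ?_⟩
  · rintro rfl
    have : ({x, x, z} : Finset α).card ≤ 2 := by
      rw [Finset.insert_eq_of_mem (by simp)]
      exact Finset.card_le_two
    omega
  · rintro rfl
    have : ({x, y, x} : Finset α).card ≤ 2 := by
      rw [Finset.insert_eq_of_mem (by simp)]
      exact Finset.card_le_two
    omega
  · rintro rfl
    have : ({x, y, y} : Finset α).card ≤ 2 := by
      rw [show ({x, y, y} : Finset α) = {x, y} by ext w; simp]
      exact Finset.card_le_two
    omega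

/-- shadow adjacency -/
def Adj (H : Finset (Finset α)) (x y : α) : Prop := (cod H x y).Nonempty

theorem Adj.symm {H : Finset (Finset α)} {x y : α} (h : Adj H x y) : Adj H y x := by
  obtain ⟨z, hz⟩ := h
  exact ⟨z, mem_cod_swap.1 hz⟩

theorem adj_of_mem_cod {H : Finset (Finset α)} {x y z : α} (h : z ∈ cod H x y) :
    Adj H x y ∧ Adj H x z ∧ Adj H y z := by
  refine ⟨⟨z, h⟩, ⟨y, mem_cod_rot.1 h⟩, ⟨x, ?_⟩⟩
  have h1 := mem_cod_swap.1 h
  exact mem_cod_rot.1 h1

instance (H : Finset (Finset α)) (x y : α) : Decidable (Adj H x y) :=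
  inferInstanceAs (Decidable (cod H x y).Nonempty)

/-- ordered shadow -/
def sh (H : Finset (Finset α)) : Finset (α × α) :=
  Finset.univ.filter (fun p => Adj H p.1 p.2)

def Full (H : Finset (Finset α)) (d : ℕ) : Prop := ∀ x y, Adj H x y → d ≤ (cod H x y).card

theorem exists_full_aux (d : ℕ) (m : ℕ) : ∀ H : Finset (Finset α), H.card ≤ m →
    (∀ e ∈ H, e.card = 3) →
    ∃ H' ⊆ H, Full H' d ∧ H.card ≤ H'.card + d * (sh H).card := by
  induction m with
  | zero =>
    intro H hm hH
    refine ⟨H, subset_rfl, ?_, by omega⟩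
    have : H = ∅ := by
      rw [← Finset.card_eq_zero]; omega
    intro x y hxy
    obtain ⟨z, hz⟩ := hxy
    rw [mem_cod, this] at hz
    simp at hz
  | succ m ih =>
    intro H hm hH
    by_cases hfull : Full H d
    · exact ⟨H, subset_rfl, hfull, by omega⟩
    · unfold Full at hfull
      push Not at hfull
      obtain ⟨x, y, hxy, hlt⟩ := hfull
      set H1 := H.filter (fun e => ¬ (x ∈ e ∧ y ∈ e)) with hH1
      have hsub : H1 ⊆ H := Finset.filter_subset _ _
      have hcard : H.card ≤ H1.card + (cod H x y).card := by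
        have h1 : H.card = H1.card + (H.filter (fun e => x ∈ e ∧ y ∈ e)).card := by
          rw [hH1, add_comm, Finset.card_filter_add_card_filter_not]
        have h2 : (H.filter (fun e => x ∈ e ∧ y ∈ e)).card ≤ (cod H x y).card := by
          have h3 : H.filter (fun e => x ∈ e ∧ y ∈ e) ⊆
              (cod H x y).image (fun z => ({x, y, z} : Finset α)) := by
            intro e he
            rw [Finset.mem_filter] at he
            obtain ⟨heH, hxe, hye⟩ := he
            have hxney : x ≠ y := by
              obtain ⟨z, hz⟩ := hxy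
              exact (ne_of_mem_cod hH hz).1
            have h4 : ({x, y} : Finset α) ⊆ e := by
              intro w hw
              simp only [mem_insert, mem_singleton] at hw
              rcases hw with rfl | rfl <;> assumption
            have h5 : (e \ {x, y}).card = 1 := by
              rw [Finset.card_sdiff_of_subset h4, hH e heH, Finset.card_pair hxney]
            rw [Finset.card_eq_one] at h5
            obtain ⟨z, hz⟩ := h5
            have h6 : e = {x, y, z} := by
              have := Finset.sdiff_union_of_subset h4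
              rw [hz] at this
              rw [← this]
              ext w; simp only [mem_insert, mem_singleton, mem_union]; tauto
            rw [Finset.mem_image]
            refine ⟨z, ?_, h6.symm⟩
            rw [mem_cod, ← h6]; exact heH
          exact (Finset.card_le_card h3).trans Finset.card_image_le
        omega
      have hlt1 : H1.card < H.card := by
        obtain ⟨z, hz⟩ := hxy
        rw [mem_cod] at hz
        apply Finset.card_lt_card
        rw [Finset.ssubset_iff_of_subset hsub]
        refine ⟨_, hz, ?_⟩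
        rw [hH1, Finset.mem_filter]
        simp
      obtain ⟨H', hH'sub, hfull', hc'⟩ := ih H1 (by omega) (fun e he => hH e (hsub he))
      refine ⟨H', hH'sub.trans hsub, hfull', ?_⟩
      have hsh : sh H1 ⊆ (sh H).erase (x, y) := by
        intro p hp
        rw [sh, Finset.mem_filter] at hp
        obtain ⟨z, hz⟩ := hp.2
        rw [mem_cod, hH1, Finset.mem_filter] at hz
        rw [Finset.mem_erase]
        constructor
        · rintro rfl
          apply hz.2
          simp
        · rw [sh, Finset.mem_filter]
          exact ⟨Finset.mem_univ _, ⟨z, by rw [mem_cod]; exact hz.1⟩⟩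
      have hmem : (x, y) ∈ sh H := by
        rw [sh, Finset.mem_filter]; exact ⟨Finset.mem_univ _, hxy⟩
      have hsc := Finset.card_le_card hsh
      rw [Finset.card_erase_of_mem hmem] at hsc
      have hpos : 0 < (sh H).card := Finset.card_pos.2 ⟨_, hmem⟩
      have hmul : d * (sh H1).card + d ≤ d * (sh H).card := by
        have : (sh H1).card + 1 ≤ (sh H).card := by omega
        calc d * (sh H1).card + d = d * ((sh H1).card + 1) := by ring
          _ ≤ d * (sh H).card := Nat.mul_le_mul_left _ this
      omega

theorem exists_full (d : ℕ) (H : Finset (Finset α)) (hH : ∀ e ∈ H, e.card = 3) :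
    ∃ H' ⊆ H, Full H' d ∧ H.card ≤ H'.card + d * (Fintype.card α) ^ 2 := by
  obtain ⟨H', h1, h2, h3⟩ := exists_full_aux d H.card H le_rfl hH
  refine ⟨H', h1, h2, h3.trans ?_⟩
  have : (sh H).card ≤ (Fintype.card α) ^ 2 := by
    calc (sh H).card ≤ (Finset.univ : Finset (α × α)).card := Finset.card_le_card (Finset.filter_subset _ _)
      _ = (Fintype.card α) ^ 2 := by rw [Finset.card_univ, Fintype.card_prod, sq]
  have := Nat.mul_le_mul_left d this
  omega

/-- number of ordered triples is at least number of edges -/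
theorem card_le_sum_cod (H : Finset (Finset α)) (hH : ∀ e ∈ H, e.card = 3) :
    H.card ≤ ∑ x, ∑ y, (cod H x y).card := by
  classical
  have h1 : H ⊆ (Finset.univ.filter (fun p : α × α × α => p.2.2 ∈ cod H p.1 p.2.1)).image
      (fun p => ({p.1, p.2.1, p.2.2} : Finset α)) := by
    intro e he
    obtain ⟨x, y, z, -, -, -, rfl⟩ := Finset.card_eq_three.1 (hH e he)
    rw [Finset.mem_image]
    exact ⟨(x, y, z), by simp [mem_cod, he], rfl⟩
  refine (Finset.card_le_card h1).trans (Finset.card_image_le.trans ?_)
  rw [Finset.card_filter, ← Finset.univ_product_univ, Finset.sum_product]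
  apply Finset.sum_le_sum
  intro x _
  rw [← Finset.univ_product_univ, Finset.sum_product]
  apply Finset.sum_le_sum
  intro y _
  rw [← Finset.card_filter]
  apply Finset.card_le_card
  intro z hz
  simpa using hz


/-- common shadow neighbourhood of two vertices -/
def CN2 (H : Finset (Finset α)) (a b : α) : Finset α :=
  Finset.univ.filter (fun z => Adj H a z ∧ Adj H b z)

/-- common shadow neighbourhood of three vertices -/
def CN3 (H : Finset (Finset α)) (a b c : α) : Finset α :=
  Finset.univ.filter (fun z => Adj H a z ∧ Adj H b z ∧ Adj H c z)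

theorem sum_card_sq_aux {ι κ : Type*} [Fintype ι] [Fintype κ] [DecidableEq κ] (c : ι → Finset κ) :
    ∑ i, (c i).card ^ 2 =
      ∑ q : κ × κ, (Finset.univ.filter (fun i => q.1 ∈ c i ∧ q.2 ∈ c i)).card := by
  classical
  simp_rw [Finset.card_filter]
  rw [Finset.sum_comm]
  apply Finset.sum_congr rfl
  intro i _
  rw [← Finset.card_filter, sq, ← Finset.card_product]
  congr 1
  ext q
  simp [Finset.mem_product]

theorem sum_card_aux {ι κ : Type*} [Fintype ι] [Fintype κ] [DecidableEq κ] (c : ι → Finset κ) :
    ∑ i, (c i).card = ∑ q : κ, (Finset.univ.filter (fun i => q ∈ c i)).card := by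
  classical
  simp_rw [Finset.card_filter]
  rw [Finset.sum_comm]
  apply Finset.sum_congr rfl
  intro i _
  rw [← Finset.card_filter]
  congr 1
  ext q
  simp

theorem case2 (H : Finset (Finset α)) (hH : ∀ e ∈ H, e.card = 3) (t : ℕ)
    (hlarge : (t + 1) * (Fintype.card α) ^ 2 < H.card) :
    ∃ a b x y, a ≠ b ∧ a ∈ cod H x y ∧ b ∈ cod H x y ∧ t ≤ (CN2 H a b).card := by
  by_contra hcon
  push Not at hcon
  set n := Fintype.card α with hn
  set S := ∑ p : α × α, (cod H p.1 p.2).card with hS
  set Q := ∑ p : α × α, (cod H p.1 p.2).card ^ 2 with hQ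
  have hS' : H.card ≤ S := by
    refine (card_le_sum_cod H hH).trans (le_of_eq ?_)
    rw [hS, ← Finset.univ_product_univ, Finset.sum_product]
  have h1 : S ^ 2 ≤ n ^ 2 * Q := by
    have := sq_sum_le_card_mul_sum_sq (s := (Finset.univ : Finset (α × α)))
      (f := fun p => (cod H p.1 p.2).card)
    rw [Finset.card_univ, Fintype.card_prod, ← sq] at this
    exact_mod_cast this
  have h2 : Q ≤ t ^ 2 * n ^ 2 + S := by
    rw [hQ, sum_card_sq_aux (fun p : α × α => cod H p.1 p.2)]
    have h3 : ∀ q : α × α, (Finset.univ.filter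
        (fun p : α × α => q.1 ∈ cod H p.1 p.2 ∧ q.2 ∈ cod H p.1 p.2)).card ≤
        t ^ 2 + if q.1 = q.2 then (Finset.univ.filter
          (fun p : α × α => q.1 ∈ cod H p.1 p.2)).card else 0 := by
      rintro ⟨a, b⟩
      dsimp only
      split_ifs with hab
      · subst hab
        simp only [and_self]
        omega
      · rw [add_zero]
        by_cases hne : (Finset.univ.filter
          (fun p : α × α => a ∈ cod H p.1 p.2 ∧ b ∈ cod H p.1 p.2)).Nonempty
        · obtain ⟨p, hp⟩ := hne
          rw [Finset.mem_filter] at hp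
          have hlt := hcon a b p.1 p.2 hab hp.2.1 hp.2.2
          have hsub : (Finset.univ.filter
              (fun p : α × α => a ∈ cod H p.1 p.2 ∧ b ∈ cod H p.1 p.2)) ⊆
              CN2 H a b ×ˢ CN2 H a b := by
            intro r hr
            rw [Finset.mem_filter] at hr
            have ha := adj_of_mem_cod hr.2.1
            have hb := adj_of_mem_cod hr.2.2
            rw [Finset.mem_product]
            simp only [CN2, Finset.mem_filter, Finset.mem_univ, true_and]
            exact ⟨⟨ha.2.1.symm, hb.2.1.symm⟩, ⟨ha.2.2.symm, hb.2.2.symm⟩⟩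
          refine (Finset.card_le_card hsub).trans ?_
          rw [Finset.card_product]
          nlinarith
        · rw [Finset.not_nonempty_iff_eq_empty] at hne
          rw [hne]; simp
    refine (Finset.sum_le_sum (fun q _ => h3 q)).trans ?_
    rw [Finset.sum_add_distrib]
    have h4 : ∑ _q : α × α, t ^ 2 = t ^ 2 * n ^ 2 := by
      rw [Finset.sum_const, Finset.card_univ, Fintype.card_prod, smul_eq_mul, ← hn]; ring
    have h5 : ∑ q : α × α, (if q.1 = q.2 then (Finset.univ.filter
          (fun p : α × α => q.1 ∈ cod H p.1 p.2)).card else 0) = S := by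
      rw [hS, sum_card_aux (fun p : α × α => cod H p.1 p.2)]
      rw [← Finset.univ_product_univ, Finset.sum_product]
      apply Finset.sum_congr rfl
      intro a _
      simp
    rw [h4, h5]
  have h6 : (t + 1) * n ^ 2 < S := lt_of_lt_of_le hlarge hS'
  have h7 : S ^ 2 ≤ n ^ 2 * (t ^ 2 * n ^ 2 + S) := h1.trans (Nat.mul_le_mul_left _ h2)
  nlinarith [h6, h7, Nat.zero_le (n^2), Nat.zero_le t, mul_lt_mul_of_pos_left h6 (by omega : 0 < S),
    mul_le_mul h6.le h6.le (Nat.zero_le _) (Nat.zero_le _), Nat.zero_le (t * n^2 * n^2)]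

theorem case3 (H : Finset (Finset α)) (hH : ∀ e ∈ H, e.card = 3) (t : ℕ)
    (hlarge : (t + 3) * (Fintype.card α) ^ 2 < H.card) :
    ∃ a b c, a ≠ b ∧ a ≠ c ∧ b ≠ c ∧ t ≤ (CN3 H a b c).card := by
  by_contra hcon
  push Not at hcon
  set n := Fintype.card α with hn
  set nb : α → Finset α := fun v => Finset.univ.filter (fun z => Adj H v z) with hnb
  set D : α → ℕ := fun v => (nb v).card with hD
  set P : α → ℕ := fun v => ∑ z, (cod H v z).card with hP
  have hcodsub : ∀ v z, cod H v z ⊆ nb v := by
    intro v z p hp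
    rw [hnb, Finset.mem_filter]
    exact ⟨Finset.mem_univ _, (adj_of_mem_cod hp).2.1⟩
  have hS' : H.card ≤ ∑ v, P v := card_le_sum_cod H hH
  have hzero : ∀ v z, z ∉ nb v → (cod H v z).card = 0 := by
    intro v z hz
    rw [Finset.card_eq_zero]
    by_contra hne
    apply hz
    rw [hnb, Finset.mem_filter]
    exact ⟨Finset.mem_univ _, Finset.nonempty_iff_ne_empty.2 hne⟩
  have hPle : ∀ v, P v ≤ (D v) ^ 2 := by
    intro v
    have h1 : P v = ∑ z ∈ nb v, (cod H v z).card := by
      rw [hP]
      symm
      apply Finset.sum_subset (Finset.subset_univ _)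
      intro z _ hz
      exact hzero v z hz
    rw [h1]
    calc ∑ z ∈ nb v, (cod H v z).card ≤ ∑ z ∈ nb v, D v :=
          Finset.sum_le_sum (fun z _ => Finset.card_le_card (hcodsub v z))
      _ = (D v) ^ 2 := by rw [Finset.sum_const, smul_eq_mul, sq]
  have hQ : ∀ v, ∑ z, (cod H v z).card ^ 2 ≤ t * (D v) ^ 2 + P v := by
    intro v
    rw [sum_card_sq_aux (fun z : α => cod H v z)]
    have h3 : ∀ q : α × α, (Finset.univ.filter
        (fun z : α => q.1 ∈ cod H v z ∧ q.2 ∈ cod H v z)).card ≤
        (if q ∈ nb v ×ˢ nb v then t else 0) + if q.1 = q.2 then (Finset.univ.filter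
          (fun z : α => q.1 ∈ cod H v z)).card else 0 := by
      rintro ⟨a, b⟩
      dsimp only
      by_cases hab : a = b
      · subst hab
        simp only [and_self, if_true]
        omega
      · rw [if_neg hab, add_zero]
        by_cases hne : (Finset.univ.filter
          (fun z : α => a ∈ cod H v z ∧ b ∈ cod H v z)).Nonempty
        · obtain ⟨z, hz⟩ := hne
          rw [Finset.mem_filter] at hz
          have hav := (ne_of_mem_cod hH hz.2.1).2.1
          have hbv := (ne_of_mem_cod hH hz.2.2).2.1
          have hlt := hcon v a b hav hbv hab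
          rw [if_pos (Finset.mem_product.2 ⟨hcodsub v z hz.2.1, hcodsub v z hz.2.2⟩)]
          have hsub : (Finset.univ.filter
              (fun z : α => a ∈ cod H v z ∧ b ∈ cod H v z)) ⊆ CN3 H v a b := by
            intro r hr
            rw [Finset.mem_filter] at hr
            have ha := adj_of_mem_cod hr.2.1
            have hb := adj_of_mem_cod hr.2.2
            simp only [CN3, Finset.mem_filter, Finset.mem_univ, true_and]
            exact ⟨ha.1, ha.2.2.symm, hb.2.2.symm⟩
          exact (Finset.card_le_card hsub).trans hlt.le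
        · rw [Finset.not_nonempty_iff_eq_empty] at hne
          rw [hne]; simp
    refine (Finset.sum_le_sum (fun q _ => h3 q)).trans ?_
    rw [Finset.sum_add_distrib]
    have h4 : ∑ q : α × α, (if q ∈ nb v ×ˢ nb v then t else 0) = t * (D v) ^ 2 := by
      rw [← Finset.sum_filter, Finset.filter_mem_eq_inter, Finset.univ_inter, Finset.sum_const,
        Finset.card_product, smul_eq_mul]
      rw [hD]; ring
    have h5 : ∑ q : α × α, (if q.1 = q.2 then (Finset.univ.filter
          (fun z : α => q.1 ∈ cod H v z)).card else 0) = P v := by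
      change _ = ∑ z, (cod H v z).card
      rw [sum_card_aux (fun z : α => cod H v z)]
      rw [← Finset.univ_product_univ, Finset.sum_product]
      apply Finset.sum_congr rfl
      intro a _
      simp
    rw [h4, h5]
  have hP2 : ∀ v, (P v) ^ 2 ≤ (t + 1) * (D v) ^ 3 := by
    intro v
    have h1 : P v = ∑ z ∈ nb v, (cod H v z).card := by
      rw [hP]
      symm
      apply Finset.sum_subset (Finset.subset_univ _)
      intro z _ hz
      exact hzero v z hz
    have h2 : (P v) ^ 2 ≤ D v * ∑ z ∈ nb v, (cod H v z).card ^ 2 := by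
      rw [h1]
      have := sq_sum_le_card_mul_sum_sq (s := nb v) (f := fun z => (cod H v z).card)
      exact_mod_cast this
    have h3 : ∑ z ∈ nb v, (cod H v z).card ^ 2 ≤ ∑ z, (cod H v z).card ^ 2 :=
      Finset.sum_le_sum_of_subset (Finset.subset_univ _)
    have h4 := hQ v
    have h5 := hPle v
    calc (P v) ^ 2 ≤ D v * (t * (D v) ^ 2 + P v) := h2.trans (Nat.mul_le_mul_left _ (h3.trans h4))
      _ ≤ D v * (t * (D v) ^ 2 + (D v) ^ 2) := Nat.mul_le_mul_left _ (by omega)
      _ = (t + 1) * (D v) ^ 3 := by ring
  have hD3 : ∑ v, (D v) ^ 3 ≤ (t + 3) * n ^ 3 := by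
    have h1 : ∑ v, (D v) ^ 3 = ∑ q : α × α × α, (CN3 H q.1 q.2.1 q.2.2).card := by
      simp_rw [CN3, Finset.card_filter]
      rw [Finset.sum_comm]
      apply Finset.sum_congr rfl
      intro v _
      rw [← Finset.card_filter, hD]
      have : (Finset.univ.filter (fun q : α × α × α => Adj H q.1 v ∧ Adj H q.2.1 v ∧ Adj H q.2.2 v))
          = nb v ×ˢ nb v ×ˢ nb v := by
        ext ⟨a, b, c⟩
        simp only [Finset.mem_filter, Finset.mem_univ, true_and, Finset.mem_product, hnb]
        exact ⟨fun h => ⟨h.1.symm, h.2.1.symm, h.2.2.symm⟩, fun h => ⟨h.1.symm, h.2.1.symm, h.2.2.symm⟩⟩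
      rw [this, Finset.card_product, Finset.card_product]
      ring
    rw [h1]
    have h2 : ∀ q : α × α × α, (CN3 H q.1 q.2.1 q.2.2).card ≤
        t + (if q.1 = q.2.1 then n else 0) + (if q.1 = q.2.2 then n else 0)
          + (if q.2.1 = q.2.2 then n else 0) := by
      rintro ⟨a, b, c⟩
      dsimp only
      have hle : (CN3 H a b c).card ≤ n := Finset.card_le_univ _
      by_cases hab : a = b
      · rw [if_pos hab]; omega
      by_cases hac : a = c
      · rw [if_pos hac]; omega
      by_cases hbc : b = c
      · rw [if_pos hbc]; omega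
      have := hcon a b c hab hac hbc
      omega
    refine (Finset.sum_le_sum (fun q _ => h2 q)).trans ?_
    rw [Finset.sum_add_distrib, Finset.sum_add_distrib, Finset.sum_add_distrib]
    have e1 : ∑ _q : α × α × α, t = t * n ^ 3 := by
      rw [Finset.sum_const, Finset.card_univ, Fintype.card_prod, Fintype.card_prod, smul_eq_mul, ← hn]
      ring
    have e2 : ∑ q : α × α × α, (if q.1 = q.2.1 then n else 0) = n ^ 3 := by
      rw [← Finset.univ_product_univ, Finset.sum_product]
      have : ∀ x : α, ∑ y : α × α, (if x = y.1 then n else 0) = n * n := by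
        intro x
        rw [Fintype.sum_prod_type_right]
        simp [← hn]
      simp only [this, Finset.sum_const, Finset.card_univ, ← hn, smul_eq_mul]
      ring
    have e3 : ∑ q : α × α × α, (if q.1 = q.2.2 then n else 0) = n ^ 3 := by
      rw [← Finset.univ_product_univ, Finset.sum_product]
      have : ∀ x : α, ∑ y : α × α, (if x = y.2 then n else 0) = n * n := by
        intro x
        rw [← Finset.univ_product_univ, Finset.sum_product]
        simp [← hn]
      simp only [this, Finset.sum_const, Finset.card_univ, ← hn, smul_eq_mul]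
      ring
    have e4 : ∑ q : α × α × α, (if q.2.1 = q.2.2 then n else 0) = n ^ 3 := by
      rw [← Finset.univ_product_univ, Finset.sum_product]
      have : ∑ y : α × α, (if y.1 = y.2 then n else 0) = n * n := by
        rw [← Finset.univ_product_univ, Finset.sum_product]
        simp [← hn]
      simp only [this, Finset.sum_const, Finset.card_univ, ← hn, smul_eq_mul]
      ring
    rw [e1, e2, e3, e4]
    apply le_of_eq; ring
  have hfin : (∑ v, P v) ^ 2 ≤ ((t + 3) * n ^ 2) ^ 2 := by
    have h1 : (∑ v, P v) ^ 2 ≤ n * ∑ v, (P v) ^ 2 := by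
      have := sq_sum_le_card_mul_sum_sq (s := (Finset.univ : Finset α)) (f := P)
      rw [Finset.card_univ, ← hn] at this
      exact_mod_cast this
    have h2 : ∑ v, (P v) ^ 2 ≤ (t + 1) * ∑ v, (D v) ^ 3 := by
      rw [Finset.mul_sum]
      exact Finset.sum_le_sum (fun v _ => hP2 v)
    calc (∑ v, P v) ^ 2 ≤ n * ((t + 1) * ((t + 3) * n ^ 3)) :=
          h1.trans (Nat.mul_le_mul_left _ (h2.trans (Nat.mul_le_mul_left _ hD3)))
      _ = (t + 1) * ((t + 3) * n ^ 4) := by ring
      _ ≤ (t + 3) * ((t + 3) * n ^ 4) := Nat.mul_le_mul_right _ (by omega)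
      _ = ((t + 3) * n ^ 2) ^ 2 := by ring
  have h9 : ∑ v, P v ≤ (t + 3) * n ^ 2 := by
    by_contra hlt
    push Not at hlt
    exact absurd hfin (not_le.2 (Nat.pow_lt_pow_left hlt (by norm_num)))
  omega


theorem Adj.ne {H : Finset (Finset α)} (hH : ∀ e ∈ H, e.card = 3) {x y : α} (h : Adj H x y) :
    x ≠ y := by
  obtain ⟨z, hz⟩ := h
  exact (ne_of_mem_cod hH hz).1

/-- an injection into a large enough set -/
theorem exists_inj {V : Type*} [Fintype V] (T : Finset α) (h : Fintype.card V ≤ T.card) :
    ∃ β : V → α, Function.Injective β ∧ ∀ v, β v ∈ T := by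
  have h' : Fintype.card V ≤ Fintype.card T := by rwa [Fintype.card_coe]
  obtain ⟨e⟩ := Function.Embedding.nonempty_of_card_le h'
  exact ⟨fun v => (e v).1, fun a b hab => e.injective (Subtype.ext hab), fun v => (e v).2⟩

/-- an injection into a large enough set with two prescribed values -/
theorem exists_inj_two {V : Type*} [Fintype V] (T : Finset α) (h : Fintype.card V ≤ T.card)
    {x y : V} (hxy : x ≠ y) {x' y' : α} (hxy' : x' ≠ y') (hx' : x' ∈ T) (hy' : y' ∈ T) :
    ∃ β : V → α, Function.Injective β ∧ (∀ v, β v ∈ T) ∧ β x = x' ∧ β y = y' := by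
  obtain ⟨β0, hinj0, hT0⟩ := exists_inj (V := V) T h
  have hswap : ∀ (a b c : α), a ∈ T → b ∈ T → c ∈ T → Equiv.swap a b c ∈ T := by
    intro a b c ha hb hc
    rw [Equiv.swap_apply_def]
    split_ifs <;> assumption
  set β1 : V → α := fun v => Equiv.swap (β0 x) x' (β0 v) with hβ1
  have hinj1 : Function.Injective β1 := (Equiv.injective _).comp hinj0
  have hT1 : ∀ v, β1 v ∈ T := fun v => hswap _ _ _ (hT0 x) hx' (hT0 v)
  have hx1 : β1 x = x' := by simp [hβ1]
  refine ⟨fun v => Equiv.swap (β1 y) y' (β1 v), (Equiv.injective _).comp hinj1,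
    fun v => hswap _ _ _ (hT1 y) hy' (hT1 v), ?_, ?_⟩
  · dsimp only
    rw [hx1]
    apply Equiv.swap_apply_of_ne_of_ne
    · intro h1
      rw [← hx1] at h1
      exact hxy (hinj1 h1)
    · exact hxy'
  · simp

/-- greedy embedding of a graph in which every nonempty set of vertices has a vertex with at most
one neighbour inside the set -/
theorem greedy {V : Type*} [Fintype V] [DecidableEq V] (R : V → V → Prop)
    (hRsymm : ∀ u v, R u v → R v u)
    (A : α → α → Prop) [DecidableRel A] (hAsymm : ∀ x y, A x y → A y x)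
    (T : Finset α) (hT : Fintype.card V ≤ T.card)
    (hdeg : ∀ x ∈ T, Fintype.card V ≤ (T.filter (fun y => A x y)).card)
    (S0 : Finset V)
    (hS0 : ∀ S ⊆ S0, S.Nonempty → ∃ v ∈ S, ∃ w, ∀ u ∈ S, R v u → u = w)
    (hirr : ∀ u, ¬ R u u) :
    ∀ m : ℕ, ∀ S ⊆ S0, S.card = m → ∃ β : V → α, Set.InjOn β (S : Set V) ∧ (∀ v ∈ S, β v ∈ T) ∧
      ∀ u ∈ S, ∀ v ∈ S, R u v → A (β u) (β v) := by
  intro m
  induction m with
  | zero =>
    intro S _ hS
    rw [Finset.card_eq_zero] at hS
    subst hS
    by_cases hV : Nonempty α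
    · exact ⟨fun _ => Classical.choice hV, by simp, by simp, by simp⟩
    · have : IsEmpty V := by
        rw [← Fintype.card_eq_zero_iff]
        have : T = ∅ := by
          rw [Finset.eq_empty_iff_forall_notMem]
          intro x _
          exact hV ⟨x⟩
        rw [this, Finset.card_empty] at hT
        omega
      exact ⟨fun v => (this.false v).elim, by simp, by simp, by simp⟩
  | succ m ih =>
    intro S hSS hS
    have hne : S.Nonempty := by
      rw [← Finset.card_pos]; omega
    obtain ⟨v, hv, w, hw⟩ := hS0 S hSS hne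
    obtain ⟨β, hinj, hβT, hβR⟩ := ih (S.erase v) ((Finset.erase_subset _ _).trans hSS)
      (by rw [Finset.card_erase_of_mem hv, hS]; omega)
    have hcardS : S.card ≤ Fintype.card V := Finset.card_le_univ _
    have himg : ((S.erase v).image β).card < Fintype.card V := by
      refine lt_of_le_of_lt Finset.card_image_le ?_
      rw [Finset.card_erase_of_mem hv]; omega
    -- choose the image of v
    have hchoice : ∃ y ∈ T, y ∉ (S.erase v).image β ∧ ∀ u ∈ S.erase v, R v u → A (β u) y := by
      by_cases hwS : w ∈ S.erase v ∧ R v w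
      · have h1 := hdeg (β w) (hβT w hwS.1)
        have h2 : (((S.erase v).image β)).card < (T.filter (fun y => A (β w) y)).card := by omega
        obtain ⟨y, hy1, hy2⟩ := Finset.exists_mem_notMem_of_card_lt_card h2
        rw [Finset.mem_filter] at hy1
        refine ⟨y, hy1.1, hy2, ?_⟩
        intro u hu hvu
        rw [hw u (Finset.mem_of_mem_erase hu) hvu]
        exact hy1.2
      · have h2 : (((S.erase v).image β)).card < T.card := by omega
        obtain ⟨y, hy1, hy2⟩ := Finset.exists_mem_notMem_of_card_lt_card h2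
        refine ⟨y, hy1, hy2, ?_⟩
        intro u hu hvu
        exfalso
        apply hwS
        have := hw u (Finset.mem_of_mem_erase hu) hvu
        subst this
        exact ⟨hu, hvu⟩
    obtain ⟨y, hyT, hyn, hyA⟩ := hchoice
    refine ⟨Function.update β v y, ?_, ?_, ?_⟩
    · intro a ha b hb hab
      simp only [Finset.mem_coe] at ha hb
      by_cases hav : a = v
      · by_cases hbv : b = v
        · rw [hav, hbv]
        · exfalso
          rw [hav, Function.update_self, Function.update_of_ne hbv] at hab
          apply hyn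
          rw [hab]
          exact Finset.mem_image_of_mem _ (Finset.mem_erase.2 ⟨hbv, hb⟩)
      · by_cases hbv : b = v
        · exfalso
          rw [hbv, Function.update_self, Function.update_of_ne hav] at hab
          apply hyn
          rw [← hab]
          exact Finset.mem_image_of_mem _ (Finset.mem_erase.2 ⟨hav, ha⟩)
        · rw [Function.update_of_ne hav, Function.update_of_ne hbv] at hab
          exact hinj (Finset.mem_coe.2 (Finset.mem_erase.2 ⟨hav, ha⟩))
            (Finset.mem_coe.2 (Finset.mem_erase.2 ⟨hbv, hb⟩)) hab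
    · intro a ha
      by_cases hav : a = v
      · rw [hav, Function.update_self]; exact hyT
      · rw [Function.update_of_ne hav]
        exact hβT a (Finset.mem_erase.2 ⟨hav, ha⟩)
    · intro a ha b hb hab
      by_cases hav : a = v
      · by_cases hbv : b = v
        · subst hav; subst hbv
          exact (hirr _ hab).elim
        · rw [hav, Function.update_self, Function.update_of_ne hbv]
          apply hAsymm
          apply hyA b (Finset.mem_erase.2 ⟨hbv, hb⟩)
          rw [← hav]; exact hab
      · by_cases hbv : b = v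
        · rw [hbv, Function.update_self, Function.update_of_ne hav]
          apply hyA a (Finset.mem_erase.2 ⟨hav, ha⟩)
          rw [← hbv]; exact hRsymm _ _ hab
        · rw [Function.update_of_ne hav, Function.update_of_ne hbv]
          exact hβR a (Finset.mem_erase.2 ⟨hav, ha⟩) b (Finset.mem_erase.2 ⟨hbv, hb⟩) hab

/-- assembling an embedding into the shadow -/
theorem assemble {V : Type*} [DecidableEq V] (G : SimpleGraph V)
    (H : Finset (Finset α)) (hH : ∀ e ∈ H, e.card = 3) (I : Finset V)
    (hI : ∀ u v, G.Adj u v → ¬ (u ∈ I ∧ v ∈ I))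
    (T : Finset α) (a : V → α) (ha : Set.InjOn a (I : Set V))
    (haT : ∀ i ∈ I, ∀ z ∈ T, Adj H (a i) z)
    (β : V → α) (hβ : ∀ u v, u ∉ I → v ∉ I → β u = β v → u = v) (hβT : ∀ v, v ∉ I → β v ∈ T)
    (hβA : ∀ u v, G.Adj u v → u ∉ I → v ∉ I → Adj H (β u) (β v)) :
    ∃ f : V → α, Function.Injective f ∧ ∀ u v, G.Adj u v → Adj H (f u) (f v) := by
  refine ⟨fun v => if v ∈ I then a v else β v, ?_, ?_⟩
  · intro u v huv
    dsimp only at huv
    by_cases hu : u ∈ I
    · by_cases hv : v ∈ I
      · rw [if_pos hu, if_pos hv] at huv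
        exact ha (Finset.mem_coe.2 hu) (Finset.mem_coe.2 hv) huv
      · rw [if_pos hu, if_neg hv] at huv
        exact ((haT u hu _ (hβT v hv)).ne hH huv).elim
    · by_cases hv : v ∈ I
      · rw [if_neg hu, if_pos hv] at huv
        exact ((haT v hv _ (hβT u hu)).ne hH huv.symm).elim
      · rw [if_neg hu, if_neg hv] at huv
        exact hβ u v hu hv huv
  · intro u v huv
    dsimp only
    by_cases hu : u ∈ I
    · by_cases hv : v ∈ I
      · exact (hI u v huv ⟨hu, hv⟩).elim
      · rw [if_pos hu, if_neg hv]
        exact haT u hu _ (hβT v hv)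
    · by_cases hv : v ∈ I
      · rw [if_neg hu, if_pos hv]
        exact (haT v hv _ (hβT u hu)).symm
      · rw [if_neg hu, if_neg hv]
        exact hβA u v huv hu hv

/-- expanding an embedding into the shadow of a full 3-graph -/
theorem expand {V : Type*} [Fintype V] (G : SimpleGraph V) [Fintype G.edgeSet]
    (H : Finset (Finset α)) (hfull : Full H (Fintype.card V + Fintype.card G.edgeSet))
    (f : V → α) (hf : ∀ u v, G.Adj u v → Adj H (f u) (f v)) :
    ∃ g : G.edgeSet → α, Function.Injective g ∧ (∀ (e : G.edgeSet) (x : V), g e ≠ f x) ∧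
      ∀ (u v : V) (h : G.Adj u v),
        ({f u, f v, g ⟨s(u, v), (SimpleGraph.mem_edgeSet G).mpr h⟩} : Finset α) ∈ H := by
  classical
  set t : G.edgeSet → Finset α := fun e =>
    cod H (f (Quot.out e.1).1) (f (Quot.out e.1).2) \ Finset.univ.image f with ht
  have hout : ∀ e : G.edgeSet, s((Quot.out e.1).1, (Quot.out e.1).2) = e.1 := by
    intro e
    exact Quot.out_eq e.1
  have hcard : ∀ e, Fintype.card G.edgeSet ≤ (t e).card := by
    intro e
    have hadj : G.Adj (Quot.out e.1).1 (Quot.out e.1).2 := by
      rw [← SimpleGraph.mem_edgeSet, hout e]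
      exact e.2
    have h1 := hfull _ _ (hf _ _ hadj)
    have h2 : (Finset.univ.image f).card ≤ Fintype.card V := by
      refine Finset.card_image_le.trans ?_
      rw [Finset.card_univ]
    have h3 := Finset.le_card_sdiff (Finset.univ.image f)
      (cod H (f (Quot.out e.1).1) (f (Quot.out e.1).2))
    rw [ht]
    dsimp only
    omega
  have hall : ∀ s : Finset G.edgeSet, s.card ≤ (s.biUnion t).card := by
    intro s
    rcases s.eq_empty_or_nonempty with rfl | ⟨e, he⟩
    · simp
    · calc s.card ≤ Fintype.card G.edgeSet := Finset.card_le_univ _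
        _ ≤ (t e).card := hcard e
        _ ≤ (s.biUnion t).card := Finset.card_le_card (Finset.subset_biUnion_of_mem t he)
  obtain ⟨g, hginj, hg⟩ := (Finset.all_card_le_biUnion_card_iff_exists_injective t).1 hall
  refine ⟨g, hginj, ?_, ?_⟩
  · intro e x hex
    have := hg e
    rw [ht] at this
    dsimp only at this
    rw [Finset.mem_sdiff] at this
    apply this.2
    rw [hex]
    exact Finset.mem_image_of_mem _ (Finset.mem_univ _)
  · intro u v h
    set e : G.edgeSet := ⟨s(u, v), (SimpleGraph.mem_edgeSet G).mpr h⟩ with he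
    have h1 := hg e
    rw [ht] at h1
    dsimp only at h1
    rw [Finset.mem_sdiff] at h1
    have h2 : s((Quot.out e.1).1, (Quot.out e.1).2) = s(u, v) := hout e
    rw [Sym2.eq_iff] at h2
    rcases h2 with ⟨h3, h4⟩ | ⟨h3, h4⟩
    · rw [h3, h4] at h1
      exact mem_cod.1 h1.1
    · rw [h3, h4] at h1
      exact mem_cod.1 (mem_cod_swap.1 h1.1)

end Pool.Agent.Exp3
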