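import Pool.Agent.Helper2.Exp3Core

/-!
MP_099390_co: the core of the proof of S07067, for use outside the frozen file.
-/

set_option autoImplicit false

namespace Pool.Agent.Helper2.Exp3Main

open Finset Pool.Agent.Exp3

theorem main_core {V : Type} [Fintype V] [DecidableEq V] (G : SimpleGraph V) [Fintype G.edgeSet]
    (X : Finset (V ⊕ G.edgeSet)) (hX3 : X.card = 3)
    (hX : ∀ (u v : V) (h : G.Adj u v),
          ((Sum.inl u : V ⊕ G.edgeSet) ∈ X ∧ (Sum.inl v : V ⊕ G.edgeSet) ∉ X ∧
              (Sum.inr ⟨s(u, v), (SimpleGraph.mem_edgeSet G).mpr h⟩ : V ⊕ G.edgeSet) ∉ X) ∨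
          ((Sum.inl u : V ⊕ G.edgeSet) ∉ X ∧ (Sum.inl v : V ⊕ G.edgeSet) ∈ X ∧
              (Sum.inr ⟨s(u, v), (SimpleGraph.mem_edgeSet G).mpr h⟩ : V ⊕ G.edgeSet) ∉ X) ∨
          ((Sum.inl u : V ⊕ G.edgeSet) ∉ X ∧ (Sum.inl v : V ⊕ G.edgeSet) ∉ X ∧
              (Sum.inr ⟨s(u, v), (SimpleGraph.mem_edgeSet G).mpr h⟩ : V ⊕ G.edgeSet) ∈ X))
    (hmin : ∀ X : Finset (V ⊕ G.edgeSet),
        (∀ (u v : V) (h : G.Adj u v),
          ((Sum.inl u : V ⊕ G.edgeSet) ∈ X ∧ (Sum.inl v : V ⊕ G.edgeSet) ∉ X ∧
              (Sum.inr ⟨s(u, v), (SimpleGraph.mem_edgeSet G).mpr h⟩ : V ⊕ G.edgeSet) ∉ X) ∨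
          ((Sum.inl u : V ⊕ G.edgeSet) ∉ X ∧ (Sum.inl v : V ⊕ G.edgeSet) ∈ X ∧
              (Sum.inr ⟨s(u, v), (SimpleGraph.mem_edgeSet G).mpr h⟩ : V ⊕ G.edgeSet) ∉ X) ∨
          ((Sum.inl u : V ⊕ G.edgeSet) ∉ X ∧ (Sum.inl v : V ⊕ G.edgeSet) ∉ X ∧
              (Sum.inr ⟨s(u, v), (SimpleGraph.mem_edgeSet G).mpr h⟩ : V ⊕ G.edgeSet) ∈ X)) →
        3 ≤ X.card)
    (n : ℕ) (H : Finset (Finset (Fin n))) (hH : ∀ e ∈ H, e.card = 3)
    (hlarge : ((Fintype.card V + Fintype.card G.edgeSet) + (Fintype.card V + 3)) * n ^ 2 < H.card) :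
    ∃ f : V → Fin n, Function.Injective f ∧
          ∃ g : G.edgeSet → Fin n, Function.Injective g ∧
            (∀ (e : G.edgeSet) (x : V), g e ≠ f x) ∧
            ∀ (u v : V) (h : G.Adj u v),
              ({f u, f v, g ⟨s(u, v), (SimpleGraph.mem_edgeSet G).mpr h⟩} : Finset (Fin n)) ∈ H := by
  classical
  obtain ⟨H', hsub, hfull, hcardH⟩ := exists_full (Fintype.card V + Fintype.card G.edgeSet) H hH
  have hH' : ∀ e ∈ H', e.card = 3 := fun e he => hH e (hsub he)
  have hcn : Fintype.card (Fin n) = n := Fintype.card_fin n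
  rw [hcn] at hcardH
  have hbig : (Fintype.card V + 3) * n ^ 2 < H'.card := by
    have : ((Fintype.card V + Fintype.card G.edgeSet) + (Fintype.card V + 3)) * n ^ 2 =
      (Fintype.card V + Fintype.card G.edgeSet) * n ^ 2 + (Fintype.card V + 3) * n ^ 2 := by ring
    omega
  -- it is enough to find an embedding into the shadow
  suffices hf : ∃ f : V → Fin n, Function.Injective f ∧ ∀ u v, G.Adj u v → Adj H' (f u) (f v) by
    obtain ⟨f, hfinj, hfA⟩ := hf
    obtain ⟨g, h1, h2, h3⟩ := expand G H' hfull f hfA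
    exact ⟨f, hfinj, g, h1, h2, fun u v h => hsub (h3 u v h)⟩
  -- the crosscut
  set I : Finset V := Finset.univ.filter (fun v => (Sum.inl v : V ⊕ G.edgeSet) ∈ X) with hI
  set F : Finset G.edgeSet := Finset.univ.filter (fun e => (Sum.inr e : V ⊕ G.edgeSet) ∈ X) with hF
  have hmemI : ∀ v, v ∈ I ↔ (Sum.inl v : V ⊕ G.edgeSet) ∈ X := by
    intro v; rw [hI, Finset.mem_filter]; simp
  have hmemF : ∀ e, e ∈ F ↔ (Sum.inr e : V ⊕ G.edgeSet) ∈ X := by
    intro v; rw [hF, Finset.mem_filter]; simp
  have hIF : I.card + F.card = 3 := by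
    rw [← hX3, ← Finset.card_disjSum]
    congr 1
    ext x
    rw [Finset.mem_disjSum]
    constructor
    · rintro (⟨v, hv, rfl⟩ | ⟨e, he, rfl⟩)
      · exact (hmemI v).1 hv
      · exact (hmemF e).1 he
    · intro hx
      rcases x with v | e
      · exact Or.inl ⟨v, (hmemI v).2 hx, rfl⟩
      · exact Or.inr ⟨e, (hmemF e).2 hx, rfl⟩
  have hindep : ∀ u v, G.Adj u v → ¬ (u ∈ I ∧ v ∈ I) := by
    intro u v h hc
    rw [hmemI, hmemI] at hc
    rcases hX u v h with h1 | h1 | h1
    · exact h1.2.1 hc.2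
    · exact h1.1 hc.1
    · exact h1.1 hc.1
  have hFedge : ∀ u v (h : G.Adj u v), u ∉ I → v ∉ I →
      (⟨s(u, v), (SimpleGraph.mem_edgeSet G).mpr h⟩ : G.edgeSet) ∈ F := by
    intro u v h hu hv
    rw [hmemI] at hu hv
    rw [hmemF]
    rcases hX u v h with h1 | h1 | h1
    · exact (hu h1.1).elim
    · exact (hv h1.2.1).elim
    · exact h1.2.2
  by_cases hI3 : I.card = 3
  · -- K_{3,t} case
    have hF0 : F = ∅ := by rw [← Finset.card_eq_zero]; omega
    obtain ⟨a, b, c, hab, hac, hbc, hCN⟩ := case3 H' hH' (Fintype.card V) (by rw [hcn]; exact hbig)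
    obtain ⟨i, j, k, hij, hik, hjk, hIe⟩ := Finset.card_eq_three.1 hI3
    obtain ⟨β, hβinj, hβT⟩ := exists_inj (V := V) (CN3 H' a b c) hCN
    refine assemble G H' hH' I hindep (CN3 H' a b c)
      (fun v => if v = i then a else if v = j then b else c) ?_ ?_ β
      (fun u v _ _ h => hβinj h) (fun v _ => hβT v) ?_
    · intro u hu v hv huv
      rw [hIe] at hu hv
      simp only [Finset.coe_insert, Finset.coe_singleton, Set.mem_insert_iff,
        Set.mem_singleton_iff] at hu hv
      dsimp only at huv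
      have hvi : (if i = i then a else if i = j then b else c) = a := if_pos rfl
      have hvj : (if j = i then a else if j = j then b else c) = b := by
        rw [if_neg hij.symm, if_pos rfl]
      have hvk : (if k = i then a else if k = j then b else c) = c := by
        rw [if_neg hik.symm, if_neg hjk.symm]
      rcases hu with hu | hu | hu <;> rcases hv with hv | hv | hv <;> rw [hu, hv] at huv ⊢
      · rw [hvi, hvj] at huv; exact (hab huv).elim
      · rw [hvi, hvk] at huv; exact (hac huv).elim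
      · rw [hvi, hvj] at huv; exact (hab huv.symm).elim
      · rw [hvj, hvk] at huv; exact (hbc huv).elim
      · rw [hvi, hvk] at huv; exact (hac huv.symm).elim
      · rw [hvj, hvk] at huv; exact (hbc huv.symm).elim
    · intro u hu z hz
      rw [hIe] at hu
      simp only [Finset.mem_insert, Finset.mem_singleton] at hu
      rw [CN3, Finset.mem_filter] at hz
      rcases hu with rfl | rfl | rfl
      · simp [hz.2.1]
      · rw [if_neg hij.symm, if_pos rfl]; exact hz.2.2.1
      · rw [if_neg hik.symm, if_neg hjk.symm]; exact hz.2.2.2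
    · intro u v h hu hv
      have := hFedge u v h hu hv
      rw [hF0] at this
      simp at this
  by_cases hI2 : I.card = 2
  · -- K_{2,t} plus an edge
    have hF1 : F.card = 1 := by omega
    obtain ⟨e0, he0⟩ := Finset.card_eq_one.1 hF1
    obtain ⟨a, b, x', y', hab, hax, hbx, hCN⟩ := case2 H' hH' (Fintype.card V) (by
      rw [hcn]
      refine lt_of_le_of_lt ?_ hbig
      exact Nat.mul_le_mul_right _ (by omega))
    obtain ⟨i, j, hij, hIe⟩ := Finset.card_eq_two.1 hI2
    have hxy' : x' ≠ y' := (ne_of_mem_cod hH' hax).1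
    have hxy'A : Adj H' x' y' := ⟨_, hax⟩
    have hx'T : x' ∈ CN2 H' a b := by
      rw [CN2, Finset.mem_filter]
      exact ⟨Finset.mem_univ _, (adj_of_mem_cod hax).2.1.symm, (adj_of_mem_cod hbx).2.1.symm⟩
    have hy'T : y' ∈ CN2 H' a b := by
      rw [CN2, Finset.mem_filter]
      exact ⟨Finset.mem_univ _, (adj_of_mem_cod hax).2.2.symm, (adj_of_mem_cod hbx).2.2.symm⟩
    -- endpoints of the special edge
    obtain ⟨x, y, hxyG, hxye⟩ : ∃ x y, G.Adj x y ∧ e0.1 = s(x, y) := by
      obtain ⟨e, he⟩ := e0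
      induction e using Sym2.ind with
      | _ x y => exact ⟨x, y, (SimpleGraph.mem_edgeSet G).1 he, rfl⟩
    obtain ⟨β, hβinj, hβT, hβx, hβy⟩ := exists_inj_two (V := V) (CN2 H' a b) hCN hxyG.ne hxy' hx'T hy'T
    refine assemble G H' hH' I hindep (CN2 H' a b)
      (fun v => if v = i then a else b) ?_ ?_ β
      (fun u v _ _ h => hβinj h) (fun v _ => hβT v) ?_
    · intro u hu v hv huv
      rw [hIe] at hu hv
      simp only [Finset.coe_insert, Finset.coe_singleton, Set.mem_insert_iff,
        Set.mem_singleton_iff] at hu hv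
      dsimp only at huv
      have hvi : (if i = i then a else b) = a := if_pos rfl
      have hvj : (if j = i then a else b) = b := if_neg hij.symm
      rcases hu with hu | hu <;> rcases hv with hv | hv <;> rw [hu, hv] at huv ⊢
      · rw [hvi, hvj] at huv; exact (hab huv).elim
      · rw [hvi, hvj] at huv; exact (hab huv.symm).elim
    · intro u hu z hz
      rw [hIe] at hu
      simp only [Finset.mem_insert, Finset.mem_singleton] at hu
      rw [CN2, Finset.mem_filter] at hz
      rcases hu with rfl | rfl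
      · simp [hz.2.1]
      · rw [if_neg hij.symm]; exact hz.2.2
    · intro u v h hu hv
      have h1 := hFedge u v h hu hv
      rw [he0, Finset.mem_singleton] at h1
      have h2 : s(u, v) = s(x, y) := by
        rw [← hxye, ← h1]
      rw [Sym2.eq_iff] at h2
      rcases h2 with ⟨h3, h4⟩ | ⟨h3, h4⟩
      · rw [h3, h4, hβx, hβy]; exact hxy'A
      · rw [h3, h4, hβx, hβy]; exact hxy'A.symm
  -- remaining case: at most one vertex in the crosscut
  have hI1 : I.card ≤ 1 := by omega
  set R : V → V → Prop := fun u v => G.Adj u v ∧ u ∉ I ∧ v ∉ I with hR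
  have hRF : ∀ u v (h : R u v),
      (⟨s(u, v), (SimpleGraph.mem_edgeSet G).mpr h.1⟩ : G.edgeSet) ∈ F :=
    fun u v h => hFedge u v h.1 h.2.1 h.2.2
  have hRsymm : ∀ u v, R u v → R v u := fun u v h => ⟨h.1.symm, h.2.2, h.2.1⟩
  have hRirr : ∀ u, ¬ R u u := fun u h => h.1.ne rfl
  have hered : ∀ S ⊆ (Finset.univ : Finset V), S.Nonempty → ∃ v ∈ S, ∃ w, ∀ u ∈ S, R v u → u = w := by
    intro S _ hSne
    by_contra hcon
    push Not at hcon
    have hcon' : ∀ v ∈ S, ∃ p ∈ S, ∃ q ∈ S, R v p ∧ R v q ∧ p ≠ q := by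
      intro v hv
      obtain ⟨p, hp, hvp, -⟩ := hcon v hv v
      obtain ⟨q, hq, hvq, hqp⟩ := hcon v hv p
      exact ⟨p, hp, q, hq, hvp, hvq, hqp.symm⟩
    obtain ⟨v, hv⟩ := hSne
    obtain ⟨p, hp, q, hq, hvp, hvq, hpq⟩ := hcon' v hv
    by_cases hF2 : F.card = 2
    · have hne : (⟨s(v, p), (SimpleGraph.mem_edgeSet G).mpr hvp.1⟩ : G.edgeSet) ≠
          ⟨s(v, q), (SimpleGraph.mem_edgeSet G).mpr hvq.1⟩ := by
        intro h
        rw [Subtype.mk.injEq, Sym2.eq_iff] at h
        rcases h with ⟨-, h⟩ | ⟨h1, h2⟩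
        · exact hpq h
        · exact hpq (h2.trans h1)
      have hFe : F = {⟨s(v, p), (SimpleGraph.mem_edgeSet G).mpr hvp.1⟩,
          ⟨s(v, q), (SimpleGraph.mem_edgeSet G).mpr hvq.1⟩} := by
        symm
        apply Finset.eq_of_subset_of_card_le
        · intro e he
          rw [Finset.mem_insert, Finset.mem_singleton] at he
          rcases he with rfl | rfl
          · exact hRF _ _ hvp
          · exact hRF _ _ hvq
        · rw [hF2, Finset.card_pair hne]
      obtain ⟨r, hr, s', hs', hpr, hps, hrs⟩ := hcon' p hp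
      have key : ∀ w, R p w → w = v := by
        intro w hw
        have := hRF _ _ hw
        rw [hFe, Finset.mem_insert, Finset.mem_singleton, Subtype.mk.injEq, Subtype.mk.injEq,
          Sym2.eq_iff, Sym2.eq_iff] at this
        rcases this with (⟨h1, -⟩ | ⟨-, h2⟩) | (⟨h1, -⟩ | ⟨h1, -⟩)
        · exact (hvp.1.ne h1.symm).elim
        · exact h2
        · exact (hvp.1.ne h1.symm).elim
        · exact (hpq h1).elim
      exact hrs ((key r hpr).trans (key s' hps).symm)
    · -- F has three elements and I is empty; use minimality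
      have hI0 : I = ∅ := by
        rw [← Finset.card_eq_zero]
        by_contra h
        apply hF2; omega
      have hF3 : F.card = 3 := by rw [hI0, Finset.card_empty] at hIF; omega
      set X' : Finset (V ⊕ G.edgeSet) :=
        insert (Sum.inl v) ((F.filter (fun e => v ∉ e.1)).image Sum.inr) with hX'
      have hcross := hmin X' (by
        intro a b h
        have hinlv : ∀ w, (Sum.inl w : V ⊕ G.edgeSet) ∈ X' ↔ w = v := by
          intro w
          rw [hX']
          simp
        have hinr : ∀ e, (Sum.inr e : V ⊕ G.edgeSet) ∈ X' ↔ (e ∈ F ∧ v ∉ e.1) := by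
          intro e
          rw [hX']
          simp
        rw [hinlv, hinlv, hinr]
        have hmem : (⟨s(a, b), (SimpleGraph.mem_edgeSet G).mpr h⟩ : G.edgeSet) ∈ F :=
          hFedge a b h (by rw [hI0]; simp) (by rw [hI0]; simp)
        have hab := h.ne
        by_cases hav : a = v
        · left
          subst hav
          refine ⟨rfl, hab.symm, ?_⟩
          intro hc
          exact hc.2 (Sym2.mem_mk_left _ _)
        · by_cases hbv : b = v
          · right; left
            subst hbv
            refine ⟨hav, rfl, ?_⟩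
            intro hc
            exact hc.2 (Sym2.mem_mk_right _ _)
          · right; right
            refine ⟨hav, hbv, hmem, ?_⟩
            intro hc
            rw [Sym2.mem_iff] at hc
            rcases hc with hc | hc
            · exact hav hc.symm
            · exact hbv hc.symm)
      have hle : X'.card ≤ 2 := by
        have h1 : X'.card ≤ (F.filter (fun e => v ∉ e.1)).card + 1 := by
          rw [hX']
          refine (Finset.card_insert_le _ _).trans ?_
          have := Finset.card_image_le (s := F.filter (fun e => v ∉ e.1))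
            (f := (Sum.inr : G.edgeSet → V ⊕ G.edgeSet))
          omega
        have hne : (⟨s(v, p), (SimpleGraph.mem_edgeSet G).mpr hvp.1⟩ : G.edgeSet) ≠
            ⟨s(v, q), (SimpleGraph.mem_edgeSet G).mpr hvq.1⟩ := by
          intro h
          rw [Subtype.mk.injEq, Sym2.eq_iff] at h
          rcases h with ⟨-, h⟩ | ⟨h1, h2⟩
          · exact hpq h
          · exact hpq (h2.trans h1)
        have h2 : 2 ≤ (F.filter (fun e => ¬ (v ∉ e.1))).card := by
          rw [← Finset.card_pair hne]
          apply Finset.card_le_card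
          intro e he
          rw [Finset.mem_insert, Finset.mem_singleton] at he
          rw [Finset.mem_filter, not_not]
          rcases he with rfl | rfl
          · exact ⟨hRF _ _ hvp, Sym2.mem_mk_left _ _⟩
          · exact ⟨hRF _ _ hvq, Sym2.mem_mk_left _ _⟩
        have h3 := Finset.card_filter_add_card_filter_not (s := F) (fun e => v ∉ e.1)
        omega
      omega
  -- host: link of a vertex of some edge
  have hH'ne : H'.Nonempty := by
    rw [← Finset.card_pos]; omega
  obtain ⟨e, he⟩ := hH'ne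
  obtain ⟨a, b, c, hab, hac, hbc, rfl⟩ := Finset.card_eq_three.1 (hH' e he)
  have hadj : Adj H' a b := ⟨c, mem_cod.2 he⟩
  set T : Finset (Fin n) := Finset.univ.filter (fun z => Adj H' a z) with hT
  have hdeg : ∀ x ∈ T, Fintype.card V ≤ (T.filter (fun y => y ∈ cod H' a x)).card := by
    intro x hx
    rw [hT, Finset.mem_filter] at hx
    have h1 := hfull a x hx.2
    have h2 : cod H' a x ⊆ T.filter (fun y => y ∈ cod H' a x) := by
      intro y hy
      rw [Finset.mem_filter, hT, Finset.mem_filter]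
      exact ⟨⟨Finset.mem_univ _, (adj_of_mem_cod hy).2.1⟩, hy⟩
    have := Finset.card_le_card h2
    omega
  have hbT : b ∈ T := by rw [hT, Finset.mem_filter]; exact ⟨Finset.mem_univ _, hadj⟩
  have hTcard : Fintype.card V ≤ T.card :=
    (hdeg b hbT).trans (Finset.card_le_card (Finset.filter_subset _ _))
  obtain ⟨β, hβinj, hβT, hβR⟩ := greedy R hRsymm (fun x y => y ∈ cod H' a x)
    (fun x y h => mem_cod_rot.1 h) T hTcard hdeg Finset.univ hered hRirr
    (Finset.univ : Finset V).card Finset.univ (subset_rfl) rfl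
  refine assemble G H' hH' I hindep T (fun _ => a) ?_ ?_ β ?_ (fun v _ => hβT v (Finset.mem_univ _)) ?_
  · intro u hu v hv _
    rw [Finset.card_le_one] at hI1
    exact hI1 u (Finset.mem_coe.1 hu) v (Finset.mem_coe.1 hv)
  · intro i _ z hz
    rw [hT, Finset.mem_filter] at hz
    exact hz.2
  · intro u v _ _ h
    exact hβinj (Finset.mem_coe.2 (Finset.mem_univ _)) (Finset.mem_coe.2 (Finset.mem_univ _)) h
  · intro u v h hu hv
    have := hβR u (Finset.mem_univ _) v (Finset.mem_univ _) ⟨h, hu, hv⟩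
    exact (adj_of_mem_cod this).2.2

end Pool.Agent.Helper2.Exp3Main
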