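import Mathlib
import Pool.Agent.Helper2.PackAPC

set_option autoImplicit false

namespace Pool.Agent.Helper2.PackAP

open Finset

/-- Twice the lower bound for `M n`. -/
noncomputable def W (n : ℕ) : ℝ :=
  ∑ p ∈ oddPrimes n, (2 * ((p : ℝ) * (n - p)) + if 3 * p ≤ n then (p : ℝ) * (n - 3 * p) else 0)

theorem mem_oddPrimes {n p : ℕ} : p ∈ oddPrimes n ↔ 3 ≤ p ∧ p ≤ n ∧ p.Prime := by
  simp only [oddPrimes, Finset.mem_filter, Finset.mem_Icc, and_assoc]

theorem W_nonneg (n : ℕ) : 0 ≤ W n := by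
  unfold W
  apply Finset.sum_nonneg
  intro p hp
  rw [mem_oddPrimes] at hp
  have h1 : (p : ℝ) ≤ n := by exact_mod_cast hp.2.1
  have h2 : 0 ≤ 2 * ((p : ℝ) * (n - p)) := by
    have : (0 : ℝ) ≤ n - p := by linarith
    positivity
  split_ifs with h
  · have h3 : (3 : ℝ) * p ≤ n := by exact_mod_cast h
    have : 0 ≤ (p : ℝ) * (n - 3 * p) := mul_nonneg (by positivity) (by linarith)
    linarith
  · linarith

/-- The contribution of one prime. -/
theorem prime_contrib (X p : ℕ) (hp : 3 ≤ p) :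
    2 * (p * Real.log p) * (∑ n ∈ Finset.Icc p X, ((n : ℝ) - p) / (n : ℝ) ^ 4)
      + (p * Real.log p) * (∑ n ∈ Finset.Icc (3 * p) X, ((n : ℝ) - (3 * p : ℕ)) / (n : ℝ) ^ 4)
      ≤ ∑ n ∈ Finset.Icc 1 X, (if p ≤ n then
        (2 * ((p : ℝ) * (n - p)) + if 3 * p ≤ n then (p : ℝ) * (n - 3 * p) else 0)
          * (Real.log n / (n : ℝ) ^ 4) else 0) := by
  have h1 : ∑ n ∈ Finset.Icc 1 X, (if p ≤ n then
        (2 * ((p : ℝ) * (n - p)) + if 3 * p ≤ n then (p : ℝ) * (n - 3 * p) else 0)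
          * (Real.log n / (n : ℝ) ^ 4) else 0)
      = ∑ n ∈ Finset.Icc 1 X, (if p ≤ n then 2 * ((p : ℝ) * (n - p)) * (Real.log n / (n : ℝ) ^ 4)
          else 0)
        + ∑ n ∈ Finset.Icc 1 X, (if 3 * p ≤ n then (p : ℝ) * (n - 3 * p)
          * (Real.log n / (n : ℝ) ^ 4) else 0) := by
    rw [← Finset.sum_add_distrib]
    apply Finset.sum_congr rfl
    intro n _
    by_cases h : p ≤ n
    · by_cases h' : 3 * p ≤ n
      · simp only [h, h', if_true]; ring
      · simp only [h, h', if_true, if_false]; ring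
    · have h' : ¬ 3 * p ≤ n := by omega
      simp only [h, h', if_false]; ring
  rw [h1, ← Finset.sum_filter, ← Finset.sum_filter]
  have hf1 : (Finset.Icc 1 X).filter (fun n => p ≤ n) = Finset.Icc p X := by
    ext n; simp only [Finset.mem_filter, Finset.mem_Icc]; omega
  have hf2 : (Finset.Icc 1 X).filter (fun n => 3 * p ≤ n) = Finset.Icc (3 * p) X := by
    ext n; simp only [Finset.mem_filter, Finset.mem_Icc]; omega
  rw [hf1, hf2, Finset.mul_sum, Finset.mul_sum]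
  have hp0 : (0 : ℝ) < p := by exact_mod_cast (by omega : 0 < p)
  apply add_le_add
  · apply Finset.sum_le_sum
    intro n hn
    rw [Finset.mem_Icc] at hn
    have h2 : (p : ℝ) ≤ n := by exact_mod_cast hn.1
    have h3 : Real.log p ≤ Real.log n := Real.log_le_log hp0 h2
    have h4 : (0 : ℝ) ≤ 2 * (p * (n - p)) / (n : ℝ) ^ 4 := by
      have : (0 : ℝ) ≤ n - p := by linarith
      positivity
    calc 2 * (p * Real.log p) * (((n : ℝ) - p) / (n : ℝ) ^ 4)
        = (2 * (p * (n - p)) / (n : ℝ) ^ 4) * Real.log p := by ring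
      _ ≤ (2 * (p * (n - p)) / (n : ℝ) ^ 4) * Real.log n := mul_le_mul_of_nonneg_left h3 h4
      _ = 2 * ((p : ℝ) * (n - p)) * (Real.log n / (n : ℝ) ^ 4) := by ring
  · apply Finset.sum_le_sum
    intro n hn
    rw [Finset.mem_Icc] at hn
    have h2 : (3 : ℝ) * p ≤ n := by exact_mod_cast hn.1
    have h3 : Real.log p ≤ Real.log n := Real.log_le_log hp0 (by linarith)
    have h4 : (0 : ℝ) ≤ (p * (n - 3 * p)) / (n : ℝ) ^ 4 := by
      have : (0 : ℝ) ≤ n - 3 * p := by linarith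
      positivity
    calc (p * Real.log p) * (((n : ℝ) - (3 * p : ℕ)) / (n : ℝ) ^ 4)
        = ((p * (n - 3 * p)) / (n : ℝ) ^ 4) * Real.log p := by push_cast; ring
      _ ≤ ((p * (n - 3 * p)) / (n : ℝ) ^ 4) * Real.log n := mul_le_mul_of_nonneg_left h3 h4
      _ = (p : ℝ) * (n - 3 * p) * (Real.log n / (n : ℝ) ^ 4) := by ring

/-- The averaged sum, with the order of summation changed. -/
theorem swap (X : ℕ) :
    ∑ n ∈ Finset.Icc 1 X, W n * (Real.log n / (n : ℝ) ^ 4)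
      = ∑ p ∈ oddPrimes X, ∑ n ∈ Finset.Icc 1 X, (if p ≤ n then
        (2 * ((p : ℝ) * (n - p)) + if 3 * p ≤ n then (p : ℝ) * (n - 3 * p) else 0)
          * (Real.log n / (n : ℝ) ^ 4) else 0) := by
  rw [Finset.sum_comm]
  apply Finset.sum_congr rfl
  intro n hn
  rw [Finset.mem_Icc] at hn
  unfold W
  rw [Finset.sum_mul, ← Finset.sum_filter]
  have : (oddPrimes X).filter (fun p => p ≤ n) = oddPrimes n := by
    ext p
    simp only [Finset.mem_filter, mem_oddPrimes]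
    constructor
    · rintro ⟨⟨h1, h2, h3⟩, h4⟩; exact ⟨h1, h4, h3⟩
    · rintro ⟨h1, h2, h3⟩; exact ⟨⟨h1, by omega, h3⟩, h2⟩
  rw [this]

/-- `∑_{p ≤ X} p log p ≤ C X²`. -/
theorem sum_plogp (X : ℕ) : ∑ p ∈ oddPrimes X, (p : ℝ) * Real.log p ≤ Real.log 4 * (X : ℝ) ^ 2 := by
  have h1 : ∑ p ∈ oddPrimes X, (p : ℝ) * Real.log p ≤ ∑ p ∈ oddPrimes X, (X : ℝ) * Real.log p := by
    apply Finset.sum_le_sum
    intro p hp
    rw [mem_oddPrimes] at hp
    exact mul_le_mul_of_nonneg_right (by exact_mod_cast hp.2.1) (Real.log_natCast_nonneg p)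
  rw [← Finset.mul_sum] at h1
  have h2 : ∑ p ∈ oddPrimes X, Real.log p ≤ Chebyshev.theta X := by
    rw [Chebyshev.theta, Nat.floor_natCast]
    apply Finset.sum_le_sum_of_subset_of_nonneg
    · intro p hp
      rw [mem_oddPrimes] at hp
      simp only [Finset.mem_filter, Finset.mem_Ioc]
      exact ⟨⟨by omega, hp.2.1⟩, hp.2.2⟩
    · intro p _ _
      exact Real.log_natCast_nonneg p
  have h3 := Chebyshev.theta_le_log4_mul_x (x := (X : ℝ)) (by positivity)
  have h4 : (0 : ℝ) ≤ X := by positivity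
  nlinarith

/-- The averaged lower bound. -/
theorem averaged : ∃ C : ℝ, ∀ Y : ℕ, 1 ≤ Y →
    (19 / 54) * Real.log (3 * Y : ℕ) - C
      ≤ ∑ n ∈ Finset.Icc 1 (3 * Y), W n * (Real.log n / (n : ℝ) ^ 4) := by
  obtain ⟨C0, hC0, hM⟩ := mertens_lower
  set S := ∑' n : ℕ, Real.log n / (n : ℝ) ^ 2 with hS
  have hS0 : 0 ≤ S := tsum_nonneg (fun n => div_nonneg (Real.log_natCast_nonneg n) (by positivity))
  have hSle : ∀ X : ℕ, ∑ p ∈ oddPrimes X, Real.log p / (p : ℝ) ^ 2 ≤ S := fun X =>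
    summable_log_div_sq.sum_le_tsum _
      (fun n _ => div_nonneg (Real.log_natCast_nonneg n) (by positivity))
  refine ⟨C0 + Real.log 3 + 17 * S + 2 * Real.log 4, ?_⟩
  intro Y hY
  set X := 3 * Y with hX
  have hX1 : 1 ≤ X := by omega
  have hX0 : (0 : ℝ) < (X : ℝ) + 1 := by positivity
  have hl4 : 0 ≤ Real.log 4 := Real.log_nonneg (by norm_num)
  rw [swap]
  have h1 : ∑ p ∈ oddPrimes X, ((1 / 3) * (Real.log p / p) - 16 * (Real.log p / (p : ℝ) ^ 2)
        - (p * Real.log p) / ((X : ℝ) + 1) ^ 2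
        + (if 3 * p ≤ X then (1 / 54) * (Real.log p / p) - 1 * (Real.log p / (p : ℝ) ^ 2)
          - (p * Real.log p) / ((X : ℝ) + 1) ^ 2 else 0))
      ≤ ∑ p ∈ oddPrimes X, ∑ n ∈ Finset.Icc 1 X, (if p ≤ n then
        (2 * ((p : ℝ) * (n - p)) + if 3 * p ≤ n then (p : ℝ) * (n - 3 * p) else 0)
          * (Real.log n / (n : ℝ) ^ 4) else 0) := by
    apply Finset.sum_le_sum
    intro p hp
    rw [mem_oddPrimes] at hp
    refine le_trans ?_ (prime_contrib X p hp.1)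
    have hp0 : (0 : ℝ) < p := by exact_mod_cast (by omega : 0 < p)
    have hlp : 0 ≤ Real.log p := Real.log_natCast_nonneg p
    have hplp : 0 ≤ p * Real.log p := by positivity
    have h2 := inner_sum p (by omega) X hp.2.1
    have h3 : 2 * (p * Real.log p) * (1 / (6 * (p : ℝ) ^ 2) - 8 / (p : ℝ) ^ 3
        - 1 / (2 * ((X : ℝ) + 1) ^ 2)) ≤ 2 * (p * Real.log p)
          * (∑ n ∈ Finset.Icc p X, ((n : ℝ) - p) / (n : ℝ) ^ 4) :=
      mul_le_mul_of_nonneg_left h2 (by positivity)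
    have h4 : 2 * (p * Real.log p) * (1 / (6 * (p : ℝ) ^ 2) - 8 / (p : ℝ) ^ 3
        - 1 / (2 * ((X : ℝ) + 1) ^ 2)) = (1 / 3) * (Real.log p / p)
          - 16 * (Real.log p / (p : ℝ) ^ 2) - (p * Real.log p) / ((X : ℝ) + 1) ^ 2 := by
      field_simp
      ring
    rw [h4] at h3
    apply add_le_add h3
    split_ifs with h
    · have h5 := inner_sum (3 * p) (by omega) X h
      have h6 : (p * Real.log p) * (1 / (6 * ((3 * p : ℕ) : ℝ) ^ 2) - 8 / ((3 * p : ℕ) : ℝ) ^ 3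
        - 1 / (2 * ((X : ℝ) + 1) ^ 2)) ≤ (p * Real.log p)
          * (∑ n ∈ Finset.Icc (3 * p) X, ((n : ℝ) - (3 * p : ℕ)) / (n : ℝ) ^ 4) :=
        mul_le_mul_of_nonneg_left h5 hplp
      refine le_trans ?_ h6
      have h7 : (p * Real.log p) * (1 / (6 * ((3 * p : ℕ) : ℝ) ^ 2) - 8 / ((3 * p : ℕ) : ℝ) ^ 3
        - 1 / (2 * ((X : ℝ) + 1) ^ 2)) = (1 / 54) * (Real.log p / p)
          - (8 / 27) * (Real.log p / (p : ℝ) ^ 2)
          - (1 / 2) * ((p * Real.log p) / ((X : ℝ) + 1) ^ 2) := by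
        push_cast
        field_simp
        ring
      rw [h7]
      have h8 : 0 ≤ Real.log p / (p : ℝ) ^ 2 := by positivity
      have h9 : 0 ≤ (p * Real.log p) / ((X : ℝ) + 1) ^ 2 := by positivity
      linarith
    · apply mul_nonneg hplp
      apply Finset.sum_nonneg
      intro n hn
      rw [Finset.mem_Icc] at hn
      have : ((3 * p : ℕ) : ℝ) ≤ n := by exact_mod_cast hn.1
      exact div_nonneg (by linarith) (by positivity)
  refine le_trans ?_ h1
  rw [Finset.sum_add_distrib, ← Finset.sum_filter, Finset.sum_sub_distrib, Finset.sum_sub_distrib,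
    Finset.sum_sub_distrib, Finset.sum_sub_distrib, ← Finset.mul_sum, ← Finset.mul_sum,
    ← Finset.mul_sum, ← Finset.mul_sum, ← Finset.sum_div, ← Finset.sum_div]
  have hf : (oddPrimes X).filter (fun p => 3 * p ≤ X) = oddPrimes Y := by
    ext p
    simp only [Finset.mem_filter, mem_oddPrimes]
    constructor
    · rintro ⟨⟨h1, h2, h3⟩, h4⟩; exact ⟨h1, by omega, h3⟩
    · rintro ⟨h1, h2, h3⟩; exact ⟨⟨h1, by omega, h3⟩, by omega⟩
  rw [hf]
  have e1 := hM X hX1
  have e2 := hM Y hY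
  have e3 := hSle X
  have e4 := hSle Y
  have e5 : (∑ p ∈ oddPrimes X, (p : ℝ) * Real.log p) / ((X : ℝ) + 1) ^ 2 ≤ Real.log 4 := by
    rw [div_le_iff₀ (by positivity)]
    refine le_trans (sum_plogp X) (mul_le_mul_of_nonneg_left ?_ hl4)
    have : (0 : ℝ) ≤ X := by positivity
    nlinarith
  have e6 : (∑ p ∈ oddPrimes Y, (p : ℝ) * Real.log p) / ((X : ℝ) + 1) ^ 2 ≤ Real.log 4 := by
    rw [div_le_iff₀ (by positivity)]
    refine le_trans (sum_plogp Y) (mul_le_mul_of_nonneg_left ?_ hl4)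
    have h1 : (0 : ℝ) ≤ Y := by positivity
    have h2 : (X : ℝ) = 3 * Y := by rw [hX]; push_cast; ring
    rw [h2]
    nlinarith
  have e7 : Real.log Y = Real.log X - Real.log 3 := by
    have h2 : (X : ℝ) = 3 * Y := by rw [hX]; push_cast; ring
    have h3 : (0 : ℝ) < Y := by exact_mod_cast hY
    rw [h2, Real.log_mul (by norm_num) h3.ne']
    ring
  have hl3 : 0 ≤ Real.log 3 := Real.log_nonneg (by norm_num)
  rw [e7] at e2
  linarith

end Pool.Agent.Helper2.PackAP
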